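import Pool.Agent.Zk1.BD.Spec
import Pool.Agent.Zk3.XD.Mom
import Pool.Agent.Q209.KS.Hu

/-!
# Halász-Montgomery for powers of prime polynomials
-/

set_option autoImplicit false

namespace Pool.Agent.Zk1.BD

open Complex Finset Pool.Agent.Zk3.Mom Pool.Agent.Q240.KS Pool.Agent.H376R2.MR

/-- a block of primes -/
noncomputable def PB (Y : ℝ) (X : ℕ) (s : ℂ) : ℂ :=
  ∑ p ∈ (Finset.Icc 1 X).filter (fun p : ℕ => p.Prime ∧ Y < p), (p : ℂ) ^ (-s)

/-- coefficients of the block, shifted by `w` -/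
noncomputable def ca (Y : ℝ) (w : ℂ) (n : ℕ) : ℂ := if Y < n then (n : ℂ) ^ (-w) else 0

lemma supp_lower {Y : ℝ} (hY : 0 ≤ Y) (w : ℂ) (X k n : ℕ) (h : (fa (ca Y w) X ^ k) n ≠ 0) :
    Y ^ k ≤ n := by
  induction k generalizing n with
  | zero =>
    rw [pow_zero, ArithmeticFunction.one_apply] at h
    have : n = 1 := by
      by_contra h1; rw [if_neg h1] at h; exact h rfl
    rw [this]; simp
  | succ j ih =>
    rw [pow_succ', ArithmeticFunction.mul_apply] at h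
    obtain ⟨x, hx, hx0⟩ := Finset.exists_ne_zero_of_sum_ne_zero h
    have h1 : fa (ca Y w) X x.1 ≠ 0 := left_ne_zero_of_mul hx0
    have h2 : (fa (ca Y w) X ^ j) x.2 ≠ 0 := right_ne_zero_of_mul hx0
    have h3 : Y < x.1 := by
      by_contra hp
      rw [fa_apply] at h1
      apply h1
      unfold ca
      simp [hp]
    have hm := Nat.mem_divisorsAntidiagonal.1 hx
    have h4 := ih _ h2
    rw [← hm.1]
    push_cast
    rw [pow_succ']
    exact mul_le_mul h3.le h4 (by positivity) (Nat.cast_nonneg _)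

lemma ch_cpow (m : ℤ) {n : ℕ} (hn : 1 ≤ n) : ch m (Real.log n) = (n : ℂ) ^ (-((m : ℂ) * I)) := by
  have h0 : (n : ℂ) ≠ 0 := by
    have : n ≠ 0 := by omega
    exact_mod_cast this
  unfold ch
  rw [Complex.cpow_def_of_ne_zero h0, ← Complex.natCast_log]
  congr 1
  push_cast
  ring

/-- the power of the block as a Dirichlet polynomial -/
lemma block_pow (Y : ℝ) (w : ℂ) (X K : ℕ) (hX : 1 ≤ X) (m : ℤ) :
    DP ((Finset.Icc 1 (X ^ K)).filter (fun n => (fa (ca Y w) X ^ K) n ≠ 0))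
      (fun n => (fa (ca Y w) X ^ K) n) m = PB Y X (w + m * I) ^ K := by
  unfold DP
  have hfz : ∀ n, X < n → fa (ca Y w) X n = 0 := fun n hn => by
    rw [fa_apply, if_neg (by rintro ⟨_, h⟩; omega)]
  have h1 := (sum_pow (fa (ca Y w) X) X K hX (fun n : ℕ => (n : ℂ) ^ (-((m : ℂ) * I)))
      (fun a b _ _ => by
        push_cast
        rw [Complex.natCast_mul_natCast_cpow])
      (by simp) hfz).2
  have h2 : ∑ n ∈ (Finset.Icc 1 (X ^ K)).filter (fun n => (fa (ca Y w) X ^ K) n ≠ 0),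
      (fa (ca Y w) X ^ K) n * ch m (Real.log n) =
      ∑ n ∈ Finset.Icc 1 (X ^ K), (fa (ca Y w) X ^ K) n * (n : ℂ) ^ (-((m : ℂ) * I)) := by
    rw [Finset.sum_filter]
    refine Finset.sum_congr rfl fun n hn => ?_
    by_cases h : (fa (ca Y w) X ^ K) n = 0
    · rw [if_neg (not_not.2 h), h, zero_mul]
    · rw [if_pos h, ch_cpow m (Finset.mem_Icc.1 hn).1]
  rw [h2, h1]
  congr 1
  unfold PB
  rw [Finset.sum_filter]
  refine Finset.sum_congr rfl fun n hn => ?_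
  have hn1 := (Finset.mem_Icc.1 hn)
  have h0 : (n : ℂ) ≠ 0 := by
    have : n ≠ 0 := by omega
    exact_mod_cast this
  rw [fa_apply]
  unfold ca
  by_cases hp : n.Prime
  · by_cases hY : Y < n
    · rw [if_pos ⟨hp, hn1.2⟩, if_pos hY, if_pos ⟨hp, hY⟩, ← Complex.cpow_add _ _ h0]
      congr 1
      ring
    · rw [if_pos ⟨hp, hn1.2⟩, if_neg hY, if_neg (fun h => hY h.2), zero_mul]
  · rw [if_neg (fun h => hp h.1), if_neg (fun h => hp h.1), zero_mul]

/-- the weight of the coefficients -/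
lemma block_weight {Y u0 : ℝ} (hY : 1 ≤ Y) (hu : 1 / 2 ≤ u0) (w : ℂ) (hw : u0 ≤ w.re) (X K : ℕ)
    (hX : 1 ≤ X) (hXY : (X : ℝ) ≤ 3 * Y) :
    ∑ n ∈ (Finset.Icc 1 (X ^ K)).filter (fun n => (fa (ca Y w) X ^ K) n ≠ 0),
      (n : ℝ) * ‖(fa (ca Y w) X ^ K) n‖ ^ 2 ≤
      (K.factorial : ℝ) * (3 * Y ^ (2 - 2 * u0)) ^ K := by
  have hqz : ∀ n, X < n → fq (ca Y w) X n = 0 := fun n hn => by
    rw [fq_apply, if_neg (by rintro ⟨_, h⟩; omega)]
  have h2 := (sum_pow (fq (ca Y w) X) X K hX (fun n => (n : ℝ)) (fun _ _ _ _ => by push_cast; rfl)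
    (by simp) hqz).2
  have h3 : ∑ n ∈ (Finset.Icc 1 (X ^ K)).filter (fun n => (fa (ca Y w) X ^ K) n ≠ 0),
      (n : ℝ) * ‖(fa (ca Y w) X ^ K) n‖ ^ 2 ≤
      (K.factorial : ℝ) * ∑ n ∈ Finset.Icc 1 (X ^ K), (fq (ca Y w) X ^ K) n * (n : ℝ) := by
    rw [Finset.mul_sum]
    refine (Finset.sum_le_sum_of_subset_of_nonneg (Finset.filter_subset _ _)
      fun n _ _ => by positivity).trans ?_
    refine Finset.sum_le_sum fun n _ => ?_
    have h4 := pow_sq (ca Y w) X K n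
    calc (n : ℝ) * ‖(fa (ca Y w) X ^ K) n‖ ^ 2 ≤
        n * ((K.factorial : ℝ) * (fq (ca Y w) X ^ K) n) :=
          mul_le_mul_of_nonneg_left h4 (Nat.cast_nonneg _)
      _ = _ := by ring
  rw [h2] at h3
  refine h3.trans ?_
  apply mul_le_mul_of_nonneg_left _ (by positivity)
  have hs0 : 0 ≤ ∑ n ∈ Finset.Icc 1 X, fq (ca Y w) X n * (n : ℝ) :=
    Finset.sum_nonneg fun n _ => mul_nonneg (fq_nonneg _ _ _) (Nat.cast_nonneg _)
  apply pow_le_pow_left₀ hs0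
  have h5 : ∀ n ∈ Finset.Icc 1 X, fq (ca Y w) X n * (n : ℝ) ≤ Y ^ (1 - 2 * u0) := by
    intro n hn
    have hn1 := Finset.mem_Icc.1 hn
    have hn0 : (0 : ℝ) < n := by exact_mod_cast hn1.1
    rw [fq_apply]
    split_ifs with hp
    · unfold ca
      split_ifs with hYn
      · rw [Complex.norm_natCast_cpow_of_pos (by omega), Complex.neg_re,
          ← Real.rpow_natCast, ← Real.rpow_mul hn0.le, ← Real.rpow_add_one hn0.ne']
        calc (n : ℝ) ^ (-w.re * ((2 : ℕ) : ℝ) + 1) ≤ (n : ℝ) ^ (1 - 2 * u0) := by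
              apply Real.rpow_le_rpow_of_exponent_le (by exact_mod_cast hn1.1)
              push_cast
              linarith
          _ ≤ Y ^ (1 - 2 * u0) :=
              Real.rpow_le_rpow_of_nonpos (by linarith) hYn.le (by linarith)
      · simp only [norm_zero]
        have : 0 < Y ^ (1 - 2 * u0) := Real.rpow_pos_of_pos (by linarith) _
        simpa using this.le
    · have : 0 < Y ^ (1 - 2 * u0) := Real.rpow_pos_of_pos (by linarith) _
      simpa using this.le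
  refine (Finset.sum_le_sum h5).trans ?_
  rw [Finset.sum_const, Nat.card_Icc, nsmul_eq_mul, Nat.add_sub_cancel]
  have hY0 : (0 : ℝ) < Y := by linarith
  have h6 : Y ^ (2 - 2 * u0) = Y * Y ^ (1 - 2 * u0) := by
    rw [show (2 : ℝ) - 2 * u0 = 1 + (1 - 2 * u0) by ring, Real.rpow_add hY0, Real.rpow_one]
  rw [h6]
  have h7 : 0 < Y ^ (1 - 2 * u0) := Real.rpow_pos_of_pos hY0 _
  nlinarith

/-- Halász-Montgomery for powers of prime polynomials. -/
theorem hmg_block {Y u0 B : ℝ} {X K : ℕ} (w : ℂ) (L : Finset ℤ) (hY : 1 ≤ Y) (hX : 1 ≤ X)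
    (hXY : (X : ℝ) ≤ 3 * Y) (hXK : (X : ℝ) ^ K ≤ Real.exp 2 * Y ^ K) (hu : 1 / 2 ≤ u0)
    (hw : u0 ≤ w.re) (hB : 0 ≤ B) (hL : ∀ k ∈ L, ∑ l ∈ L, ‖kn (Y ^ K) (k - l)‖ ≤ B) :
    ∑ m ∈ L, ‖PB Y X (w + m * I) ^ K‖ ^ 2 ≤ B * ((K.factorial : ℝ) * (3 * Y ^ (2 - 2 * u0)) ^ K) := by
  have hY0 : (0 : ℝ) < Y := by linarith
  have hN : 1 ≤ Y ^ K := one_le_pow₀ hY
  have hN0 : 0 < Y ^ K := by positivity
  have h1 := Pool.Agent.Q209.KS.hmg
    ((Finset.Icc 1 (X ^ K)).filter (fun n => (fa (ca Y w) X ^ K) n ≠ 0))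
    (fun n => (fa (ca Y w) X ^ K) n) (Y ^ K) B L hN hB (by
      intro n hn
      obtain ⟨h2, h3⟩ := Finset.mem_filter.1 hn
      obtain ⟨h4, h5⟩ := Finset.mem_Icc.1 h2
      refine ⟨h4, ?_⟩
      have h6 := supp_lower hY0.le w X K n h3
      have hn0 : (0 : ℝ) < n := by exact_mod_cast h4
      have h7 : Real.log (Y ^ K) ≤ Real.log n := Real.log_le_log hN0 h6
      have h8 : (n : ℝ) ≤ Real.exp 2 * Y ^ K := by
        refine le_trans ?_ hXK
        exact_mod_cast h5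
      have h9 := Real.log_le_log hn0 h8
      rw [Real.log_mul (Real.exp_pos _).ne' hN0.ne', Real.log_exp] at h9
      rw [abs_le]
      constructor <;> linarith) hL
  have h2 : ∀ m ∈ L, ‖PB Y X (w + m * I) ^ K‖ ^ 2 =
      ‖DP ((Finset.Icc 1 (X ^ K)).filter (fun n => (fa (ca Y w) X ^ K) n ≠ 0))
      (fun n => (fa (ca Y w) X ^ K) n) m‖ ^ 2 := by
    intro m _
    rw [block_pow Y w X K hX m]
  rw [Finset.sum_congr rfl h2]
  exact h1.trans (mul_le_mul_of_nonneg_left (block_weight hY hu w hw X K hX hXY) hB)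

end Pool.Agent.Zk1.BD
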