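import Pool.Agent.W261.SD.SSq

/-!
# Point values from sums over shifted integer points
-/

set_option autoImplicit false

namespace Pool.Agent.Zk1.BD

open Complex Finset MeasureTheory intervalIntegral

theorem sq_sum : ∃ C : ℝ, 0 < C ∧ ∀ (f : ℂ → ℂ) (L : Finset ℤ) (δ σ1 S : ℝ), Differentiable ℂ f →
    0 < δ → δ ≤ 1 → 0 ≤ σ1 → σ1 ≤ 5 → 0 ≤ S →
    (∀ m ∈ L, ∃ z : ℂ, σ1 + δ ≤ z.re ∧ z.re ≤ 4 ∧ |z.im - m| ≤ 3 ∧ 1 ≤ ‖f z‖) →
    (∀ u v : ℝ, σ1 ≤ u → u ≤ 5 → |v| ≤ 4 → ∑ m ∈ L, ‖f ((u : ℂ) + v * I + m * I)‖ ^ 2 ≤ S) →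
    (L.card : ℝ) ≤ C / δ ^ 2 * S := by
  obtain ⟨C, hC, h⟩ := Pool.Agent.W261.SD.ssq
  refine ⟨C * 40, by positivity, ?_⟩
  intro f L δ σ1 S hf hδ hδ1 hσ1 hσ5 hS0 hz hS
  have hfc : Continuous f := hf.continuous
  have hg : Continuous (fun p : ℝ × ℝ => ‖f ((p.1 : ℂ) + p.2 * I)‖ ^ 2) := by
    refine (hfc.comp ?_).norm.pow 2
    exact (Complex.continuous_ofReal.comp continuous_fst).add
      ((Complex.continuous_ofReal.comp continuous_snd).mul continuous_const)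
  have hpar : ∀ c d : ℝ, Continuous (fun x : ℝ => ∫ y in c..d, ‖f ((x : ℂ) + y * I)‖ ^ 2) := by
    intro c d
    exact continuous_parametric_intervalIntegral_of_continuous' hg c d
  have hgx : ∀ x : ℝ, Continuous (fun y : ℝ => ‖f ((x : ℂ) + y * I)‖ ^ 2) := fun x =>
    hg.comp (continuous_const.prodMk continuous_id)
  have hm : ∀ m ∈ L, (1 : ℝ) ≤ C / δ ^ 2 * ∫ x in σ1..5, ∫ v in (-4 : ℝ)..4, ‖f ((x : ℂ) + v * I + m * I)‖ ^ 2 := by
    intro m hmL
    obtain ⟨z, h1, h2, h3, h4⟩ := hz m hmL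
    have h5 := h f z.re z.im δ hδ (fun z _ _ => hf z)
    rw [Complex.re_add_im] at h5
    have h6 : (1 : ℝ) ≤ ‖f z‖ ^ 2 := one_le_pow₀ h4
    refine h6.trans (h5.trans ?_)
    apply mul_le_mul_of_nonneg_left _ (by positivity)
    have h3' := abs_le.1 h3
    have h7 : ∫ x in (z.re - δ)..(z.re + δ), ∫ y in (z.im - δ)..(z.im + δ), ‖f ((x : ℂ) + y * I)‖ ^ 2 ≤
        ∫ x in (z.re - δ)..(z.re + δ), ∫ y in ((m : ℝ) - 4)..((m : ℝ) + 4), ‖f ((x : ℂ) + y * I)‖ ^ 2 := by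
      apply integral_mono_on (by linarith) ((hpar _ _).intervalIntegrable _ _)
        ((hpar _ _).intervalIntegrable _ _)
      intro x _
      apply integral_mono_interval (by linarith) (by linarith) (by linarith)
      · exact Filter.Eventually.of_forall fun y => by positivity
      · exact (hgx x).intervalIntegrable _ _
    have h8 : ∫ x in (z.re - δ)..(z.re + δ), ∫ y in ((m : ℝ) - 4)..((m : ℝ) + 4), ‖f ((x : ℂ) + y * I)‖ ^ 2 ≤
        ∫ x in σ1..5, ∫ y in ((m : ℝ) - 4)..((m : ℝ) + 4), ‖f ((x : ℂ) + y * I)‖ ^ 2 := by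
      apply integral_mono_interval (by linarith) (by linarith) (by linarith)
      · refine Filter.Eventually.of_forall fun x => ?_
        exact integral_nonneg (by linarith) fun y _ => by positivity
      · exact (hpar _ _).intervalIntegrable _ _
    refine h7.trans (h8.trans (le_of_eq ?_))
    congr 1
    funext x
    have h9 := intervalIntegral.integral_comp_add_right (a := -4) (b := 4)
      (fun y : ℝ => ‖f ((x : ℂ) + y * I)‖ ^ 2) (m : ℝ)
    rw [show (m : ℝ) - 4 = -4 + m by ring, show (m : ℝ) + 4 = 4 + m by ring, ← h9]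
    congr 1
    funext v
    congr 3
    push_cast
    ring
  have hcont : ∀ m : ℤ, Continuous (fun p : ℝ × ℝ => ‖f ((p.1 : ℂ) + p.2 * I + m * I)‖ ^ 2) := by
    intro m
    refine (hfc.comp ?_).norm.pow 2
    exact ((Complex.continuous_ofReal.comp continuous_fst).add
      ((Complex.continuous_ofReal.comp continuous_snd).mul continuous_const)).add continuous_const
  have hcx : ∀ (m : ℤ) (x : ℝ), Continuous (fun v : ℝ => ‖f ((x : ℂ) + v * I + m * I)‖ ^ 2) := fun m x =>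
    (hcont m).comp (continuous_const.prodMk continuous_id)
  have hpar2 : ∀ m : ℤ, Continuous (fun x : ℝ => ∫ v in (-4 : ℝ)..4, ‖f ((x : ℂ) + v * I + m * I)‖ ^ 2) := by
    intro m
    exact continuous_parametric_intervalIntegral_of_continuous' (hcont m) _ _
  have h10 : (L.card : ℝ) ≤ ∑ m ∈ L, C / δ ^ 2 * ∫ x in σ1..5, ∫ v in (-4 : ℝ)..4, ‖f ((x : ℂ) + v * I + m * I)‖ ^ 2 := by
    have := Finset.sum_le_sum hm
    simpa using this
  rw [← Finset.mul_sum] at h10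
  have h11 : ∑ m ∈ L, ∫ x in σ1..5, ∫ v in (-4 : ℝ)..4, ‖f ((x : ℂ) + v * I + m * I)‖ ^ 2 =
      ∫ x in σ1..5, ∫ v in (-4 : ℝ)..4, ∑ m ∈ L, ‖f ((x : ℂ) + v * I + m * I)‖ ^ 2 := by
    rw [← intervalIntegral.integral_finsetSum (fun m _ => (hpar2 m).intervalIntegrable _ _)]
    congr 1
    funext x
    rw [intervalIntegral.integral_finsetSum (fun m _ => (hcx m x).intervalIntegrable _ _)]
  rw [h11] at h10
  have hsumc : Continuous (fun p : ℝ × ℝ => ∑ m ∈ L, ‖f ((p.1 : ℂ) + p.2 * I + m * I)‖ ^ 2) :=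
    continuous_finsetSum _ fun m _ => hcont m
  have h12 : ∀ x ∈ Set.Icc σ1 5, ∫ v in (-4 : ℝ)..4, ∑ m ∈ L, ‖f ((x : ℂ) + v * I + m * I)‖ ^ 2 ≤ 8 * S := by
    intro x hx
    have h13 : ∫ v in (-4 : ℝ)..4, ∑ m ∈ L, ‖f ((x : ℂ) + v * I + m * I)‖ ^ 2 ≤ ∫ v in (-4 : ℝ)..4, S := by
      apply integral_mono_on (by norm_num)
      · exact (hsumc.comp (continuous_const.prodMk continuous_id)).intervalIntegrable _ _
      · exact continuous_const.intervalIntegrable _ _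
      · intro v hv
        exact hS x v hx.1 hx.2 (abs_le.2 hv)
    refine h13.trans (le_of_eq ?_)
    rw [intervalIntegral.integral_const, smul_eq_mul]
    ring
  have h14 : ∫ x in σ1..5, ∫ v in (-4 : ℝ)..4, ∑ m ∈ L, ‖f ((x : ℂ) + v * I + m * I)‖ ^ 2 ≤ 40 * S := by
    have h15 : ∫ x in σ1..5, ∫ v in (-4 : ℝ)..4, ∑ m ∈ L, ‖f ((x : ℂ) + v * I + m * I)‖ ^ 2 ≤
        ∫ x in σ1..5, 8 * S := by
      apply integral_mono_on hσ5
      · exact (continuous_parametric_intervalIntegral_of_continuous'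
          hsumc _ _).intervalIntegrable _ _
      · exact continuous_const.intervalIntegrable _ _
      · exact h12
    refine h15.trans ?_
    rw [intervalIntegral.integral_const, smul_eq_mul]
    nlinarith
  refine h10.trans ?_
  calc C / δ ^ 2 * _ ≤ C / δ ^ 2 * (40 * S) := mul_le_mul_of_nonneg_left h14 (by positivity)
    _ = _ := by ring

end Pool.Agent.Zk1.BD
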