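import Pool.Agent.Zk1.BD.B3

/-!
# The bad integers: `S_BAD`
-/

set_option autoImplicit false

namespace Pool.Agent.Zk1.BD

open Complex Finset

lemma PB_eq {Y X : ℝ} (hY : 0 ≤ Y) (hYX : Y ≤ X) (s : ℂ) : PB Y ⌊X⌋₊ s = PS X s - PS Y s := by
  classical
  unfold PB PS
  have h1 : (Finset.range (⌊X⌋₊ + 1)).filter Nat.Prime =
      (Finset.range (⌊Y⌋₊ + 1)).filter Nat.Prime ∪
      (Finset.Icc 1 ⌊X⌋₊).filter (fun p : ℕ => p.Prime ∧ Y < p) := by
    ext p
    simp only [Finset.mem_filter, Finset.mem_range, Finset.mem_union, Finset.mem_Icc]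
    have hfl : ⌊Y⌋₊ ≤ ⌊X⌋₊ := Nat.floor_le_floor hYX
    have hlt : Y < p ↔ ⌊Y⌋₊ < p := (Nat.floor_lt hY).symm
    constructor
    · rintro ⟨h1, h2⟩
      by_cases h3 : p < ⌊Y⌋₊ + 1
      · exact Or.inl ⟨h3, h2⟩
      · exact Or.inr ⟨⟨h2.one_lt.le, by omega⟩, h2, hlt.2 (by omega)⟩
    · rintro (⟨h1, h2⟩ | ⟨⟨h1, h2⟩, h3, _⟩)
      · exact ⟨by omega, h2⟩
      · exact ⟨by omega, h3⟩
  have h2 : Disjoint ((Finset.range (⌊Y⌋₊ + 1)).filter Nat.Prime)
      ((Finset.Icc 1 ⌊X⌋₊).filter (fun p : ℕ => p.Prime ∧ Y < p)) := by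
    rw [Finset.disjoint_left]
    intro p hp hp'
    simp only [Finset.mem_filter, Finset.mem_range, Finset.mem_Icc] at hp hp'
    have := (Nat.floor_lt hY).2 hp'.2.2
    omega
  rw [h1, Finset.sum_union h2]
  ring

lemma PS_le {X : ℝ} (hX : 0 ≤ X) {s : ℂ} (hs : 0 ≤ s.re) : ‖PS X s‖ ≤ X := by
  unfold PS
  refine (norm_sum_le _ _).trans ?_
  have h1 : ∀ p ∈ (Finset.range (⌊X⌋₊ + 1)).filter Nat.Prime, ‖(p : ℂ) ^ (-s)‖ ≤ 1 := by
    intro p hp
    have hp1 := (Finset.mem_filter.1 hp).2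
    rw [Complex.norm_natCast_cpow_of_pos hp1.pos, Complex.neg_re]
    exact Real.rpow_le_one_of_one_le_of_nonpos (by exact_mod_cast hp1.one_lt.le) (by linarith)
  refine (Finset.sum_le_sum h1).trans ?_
  rw [Finset.sum_const, nsmul_eq_mul, mul_one]
  have h2 : ((Finset.range (⌊X⌋₊ + 1)).filter Nat.Prime).card ≤ ⌊X⌋₊ := by
    have h3 : (Finset.range (⌊X⌋₊ + 1)).filter Nat.Prime ⊆ Finset.Icc 1 ⌊X⌋₊ := by
      intro p hp
      simp only [Finset.mem_filter, Finset.mem_range] at hp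
      rw [Finset.mem_Icc]
      exact ⟨hp.2.one_lt.le, by omega⟩
    have h4 := Finset.card_le_card h3
    simpa using h4
  calc (((Finset.range (⌊X⌋₊ + 1)).filter Nat.Prime).card : ℝ) ≤ ⌊X⌋₊ := by exact_mod_cast h2
    _ ≤ X := Nat.floor_le hX

/-- choice of the exponent -/
lemma choose_K {Y U α a : ℝ} (hU : 1 < U) (hY : 1 < Y) (hYa : Y ≤ U ^ a) (hα : 0 < α) :
    ∃ K : ℕ, U ^ α ≤ Y ^ K ∧ Y ^ K ≤ U ^ (α + a) := by
  have hlU : 0 < Real.log U := Real.log_pos hU
  have hlY : 0 < Real.log Y := Real.log_pos hY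
  have hU0 : 0 < U := by linarith
  have hY0 : 0 < Y := by linarith
  refine ⟨⌈α * Real.log U / Real.log Y⌉₊, ?_, ?_⟩
  · have h1 := Nat.le_ceil (α * Real.log U / Real.log Y)
    rw [div_le_iff₀ hlY] at h1
    rw [← Real.log_le_log_iff (Real.rpow_pos_of_pos hU0 _) (by positivity), Real.log_rpow hU0,
      Real.log_pow]
    exact h1
  · have h1 := Nat.ceil_lt_add_one (show 0 ≤ α * Real.log U / Real.log Y by positivity)
    have h2 : (⌈α * Real.log U / Real.log Y⌉₊ : ℝ) * Real.log Y ≤ α * Real.log U + Real.log Y := by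
      have h3 := mul_le_mul_of_nonneg_right h1.le hlY.le
      rw [add_mul, div_mul_cancel₀ _ hlY.ne', one_mul] at h3
      exact h3
    have h4 : Real.log Y ≤ a * Real.log U := by
      have := Real.log_le_log hY0 hYa
      rwa [Real.log_rpow hU0] at this
    rw [← Real.log_le_log_iff (by positivity) (Real.rpow_pos_of_pos hU0 _), Real.log_rpow hU0,
      Real.log_pow]
    linarith

/-- a large prime sum has a large block -/
lemma big_block {U a η : ℝ} {q : ℕ} (hU : 1 < U) (ha : 0 < a) (hη : 0 < η) (hη1 : η ≤ 1) (hq : 1 ≤ q)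
    (hbig : (q * a * Real.log U + 1) ≤ U ^ (η * a) - U ^ (η * a / 2)) (z : ℂ) (hz : 0 ≤ z.re)
    (h : U ^ (η * a) ≤ ‖PS (U ^ a) z‖) :
    ∃ i ∈ Finset.range ⌈q * a * Real.log U⌉₊,
      1 ≤ ‖PB (min (U ^ (η * a / 2) * Real.exp (i / q)) (U ^ a))
        ⌊min (U ^ (η * a / 2) * Real.exp ((i + 1 : ℕ) / q)) (U ^ a)⌋₊ z‖ := by
  have hU0 : 0 < U := by linarith
  have hlU : 0 < Real.log U := Real.log_pos hU
  have hq0 : (0 : ℝ) < q := by exact_mod_cast hq
  set W : ℝ := U ^ (η * a / 2) with hW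
  set I : ℕ := ⌈q * a * Real.log U⌉₊ with hI
  have hW1 : 1 ≤ W := Real.one_le_rpow hU.le (by positivity)
  have hW0 : 0 < W := by linarith
  have hWZ : W ≤ U ^ a := Real.rpow_le_rpow_of_exponent_le hU.le (by nlinarith)
  by_contra hcon
  push Not at hcon
  set Yi : ℕ → ℝ := fun i => min (W * Real.exp (i / q)) (U ^ a) with hYi
  have hYpos : ∀ i, 0 ≤ Yi i := fun i => le_min (by positivity) (by positivity)
  have hYmono : ∀ i : ℕ, Yi i ≤ Yi (i + 1) := by
    intro i
    apply min_le_min_right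
    apply mul_le_mul_of_nonneg_left _ hW0.le
    apply Real.exp_le_exp.2
    apply div_le_div_of_nonneg_right _ hq0.le
    push_cast
    linarith
  have h1 : PS (Yi I) z - PS (Yi 0) z = ∑ i ∈ Finset.range I, PB (Yi i) ⌊Yi (i + 1)⌋₊ z := by
    rw [← Finset.sum_range_sub (fun i => PS (Yi i) z) I]
    exact Finset.sum_congr rfl fun i _ => (PB_eq (hYpos i) (hYmono i) z).symm
  have h2 : Yi 0 = W := by
    simp only [hYi]
    rw [Nat.cast_zero, zero_div, Real.exp_zero, mul_one]
    exact min_eq_left hWZ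
  have h3 : Yi I = U ^ a := by
    simp only [hYi]
    apply min_eq_right
    have h4 : a * Real.log U ≤ I / q := by
      rw [le_div_iff₀ hq0]
      have := Nat.le_ceil (q * a * Real.log U)
      rw [hI]
      linarith
    calc U ^ a = Real.exp (a * Real.log U) := by
          rw [mul_comm, ← Real.rpow_def_of_pos hU0]
      _ ≤ Real.exp (I / q) := Real.exp_le_exp.2 h4
      _ ≤ W * Real.exp (I / q) := by
          have := Real.exp_pos ((I : ℝ) / q)
          nlinarith
  rw [h2, h3] at h1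
  have h5 : ‖∑ i ∈ Finset.range I, PB (Yi i) ⌊Yi (i + 1)⌋₊ z‖ ≤ I := by
    refine (norm_sum_le _ _).trans ?_
    have h6 : ∀ i ∈ Finset.range I, ‖PB (Yi i) ⌊Yi (i + 1)⌋₊ z‖ ≤ 1 := fun i hi => (hcon i hi).le
    refine (Finset.sum_le_sum h6).trans ?_
    simp
  rw [← h1] at h5
  have h7 := PS_le hW0.le hz
  have h8 : ‖PS (U ^ a) z‖ ≤ ‖PS (U ^ a) z - PS W z‖ + ‖PS W z‖ := by
    have := norm_add_le (PS (U ^ a) z - PS W z) (PS W z)
    rwa [sub_add_cancel] at this
  have h9 : (I : ℝ) < q * a * Real.log U + 1 := Nat.ceil_lt_add_one (by positivity)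
  linarith

/-- the elementary inequality for the exponents -/
lemma exponents {k : ℕ} {ε a x e : ℝ} (hk : 2 ≤ k) (hε : 0 < ε) (hε1 : ε ≤ 1) (ha : 0 < a)
    (ha1 : a ≤ ε / 100) (hx : 0 ≤ x) (hx1 : x ≤ 2 / 2 ^ k) (he : e = ε / (100 * 2 ^ k)) :
    0 < e ∧ e ≤ 1 / 400 ∧ 1 / 2 ≤ (k : ℝ) - (2 ^ k - 2) * (x + 6 * e) ∧
    (k : ℝ) - (2 ^ k - 2) * (x + 6 * e) ≤ k ∧ 1 ≤ (k : ℝ) - (2 ^ k - 2) * x ∧
    x + 6 * e ≤ 4 / 2 ^ k ∧
    (1 / ((k : ℝ) - (2 ^ k - 2) * (x + 6 * e)) + a) * (x + 5 * e) ≤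
      x / ((k : ℝ) - (2 ^ k - 2) * x) + ε / 2 := by
  have hM : (4 : ℝ) ≤ 2 ^ k := by
    calc (4 : ℝ) = 2 ^ 2 := by norm_num
      _ ≤ 2 ^ k := pow_le_pow_right₀ (by norm_num) hk
  have hM0 : (0 : ℝ) < 2 ^ k := by positivity
  have hkR : (2 : ℝ) ≤ k := by exact_mod_cast hk
  set M : ℝ := 2 ^ k with hMdef
  have he0 : 0 < e := by rw [he]; positivity
  have heM : e * M = ε / 100 := by rw [he]; field_simp
  have hxM : x * M ≤ 2 := by
    rw [le_div_iff₀ hM0] at hx1
    exact hx1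
  have hD1 : 1 ≤ (k : ℝ) - (M - 2) * x := by
    rcases Nat.eq_or_lt_of_le hk with h2 | h3
    · have h4 : M = 4 := by rw [hMdef, ← h2]; norm_num
      rw [h4] at hxM ⊢
      rw [← h2]
      push_cast
      linarith
    · have h4 : (3 : ℝ) ≤ k := by exact_mod_cast h3
      have h5 : (M - 2) * x = x * M - 2 * x := by ring
      linarith
  have h4e : 4 * e ≤ M * e := mul_le_mul_of_nonneg_right hM he0.le
  have hMe : M * e = ε / 100 := by rw [mul_comm]; exact heM
  have h5 : (M - 2) * (6 * e) ≤ 6 * ε / 100 := by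
    have h6 : (M - 2) * (6 * e) = 6 * (M * e) - 12 * e := by ring
    rw [h6, hMe]
    linarith
  have hDn : 1 / 2 ≤ (k : ℝ) - (M - 2) * (x + 6 * e) := by
    have h6 : (M - 2) * (x + 6 * e) = (M - 2) * x + (M - 2) * (6 * e) := by ring
    linarith
  have he1 : e ≤ 1 / 400 := by linarith
  refine ⟨he0, he1, hDn, ?_, hD1, ?_, ?_⟩
  · have : 0 ≤ (M - 2) * (x + 6 * e) := mul_nonneg (by linarith) (by linarith)
    linarith
  · rw [le_div_iff₀ hM0]
    have h6 : (x + 6 * e) * M = x * M + 6 * (e * M) := by ring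
    rw [h6, heM]
    linarith
  · set D : ℝ := (k : ℝ) - (M - 2) * x with hD
    set D' : ℝ := (k : ℝ) - (M - 2) * (x + 6 * e) with hD'
    have hD0 : 0 < D := by linarith
    have hD'0 : 0 < D' := by linarith
    have h6 : D - D' = (M - 2) * (6 * e) := by rw [hD, hD']; ring
    have h7 : 1 / D' ≤ 2 := by
      rw [div_le_iff₀ hD'0]
      linarith
    have h8 : x / D' ≤ x / D + 24 * e := by
      have h9 : x / D' - x / D = x * (D - D') / (D * D') := by
        field_simp
      have h10 : x * (D - D') ≤ 12 * e := by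
        rw [h6]
        have h7 : x * ((M - 2) * (6 * e)) = 6 * e * (x * M) - 12 * (x * e) := by ring
        have h8 : 6 * e * (x * M) ≤ 6 * e * 2 := mul_le_mul_of_nonneg_left hxM (by linarith)
        have h9 : 0 ≤ x * e := mul_nonneg hx he0.le
        linarith
      have h11 : x * (D - D') / (D * D') ≤ 12 * e / (1 * (1 / 2)) := by
        apply div_le_div₀ (by positivity) h10 (by norm_num)
        exact mul_le_mul hD1 hDn (by norm_num) hD0.le
      have h12 : 12 * e / (1 * (1 / 2)) = 24 * e := by ring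
      linarith
    have h13 : (1 / D' + a) * (x + 5 * e) = x / D' + 5 * e * (1 / D') + a * (x + 5 * e) := by
      ring
    rw [h13]
    have h14 : 5 * e * (1 / D') ≤ 10 * e := by
      have := mul_le_mul_of_nonneg_left h7 (show 0 ≤ 5 * e by linarith)
      linarith
    have hx12 : x ≤ 1 / 2 := by
      have := mul_le_mul_of_nonneg_left hM hx
      linarith
    have h15 : a * (x + 5 * e) ≤ a := by
      have h15' : x + 5 * e ≤ 1 := by linarith
      have := mul_le_mul_of_nonneg_left h15' ha.le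
      linarith
    have h16 : 34 * e ≤ 34 / 400 * ε := by linarith
    linarith

theorem sBAD (hKX : S_KX) : S_BAD := by
  classical
  intro k ε0 hk hε0
  obtain ⟨ε, hεdef⟩ : ∃ ε : ℝ, ε = min ε0 1 := ⟨_, rfl⟩
  have hε : 0 < ε := by rw [hεdef]; exact lt_min hε0 one_pos
  have hε1 : ε ≤ 1 := by rw [hεdef]; exact min_le_right _ _
  have hεε0 : ε ≤ ε0 := by rw [hεdef]; exact min_le_left _ _
  obtain ⟨e, he⟩ : ∃ e : ℝ, e = ε / (100 * 2 ^ k) := ⟨_, rfl⟩
  have hkR : (2 : ℝ) ≤ k := by exact_mod_cast hk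
  refine ⟨e, ε / 100, by rw [he]; positivity, by positivity, ?_⟩
  intro a η ha ha1 hη hη1
  obtain ⟨he0, he1, -⟩ := exponents hk hε hε1 ha ha1 (le_refl 0) (by positivity) he
  obtain ⟨q, hq⟩ : ∃ q : ℕ, q = ⌈6 / (η * a)⌉₊ + 1 := ⟨_, rfl⟩
  have hq1 : 1 ≤ q := by omega
  have hq0 : (0 : ℝ) < q := by exact_mod_cast hq1
  have hqb : 6 / (η * a) ≤ q := by
    have := Nat.le_ceil (6 / (η * a))
    rw [hq]
    push_cast
    linarith
  obtain ⟨A, hA, hblock⟩ := one_block hKX k q e e hk he0 he0 (by linarith)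
  -- the large parameter
  obtain ⟨U0, hU0⟩ : ∃ U0 : ℝ, ∀ U : ℝ, U0 ≤ U → 2 ≤ U ∧
      (q * a * Real.log U + 1) ≤ U ^ (η * a) - U ^ (η * a / 2) ∧ 2 * A ≤ U ^ (e / k) := by
    have t1 : Filter.Tendsto (fun U : ℝ => U ^ (η * a / 2)) Filter.atTop Filter.atTop :=
      tendsto_rpow_atTop (by positivity)
    have t2 : Filter.Tendsto (fun U : ℝ => U ^ (e / k)) Filter.atTop Filter.atTop :=
      tendsto_rpow_atTop (by positivity)
    have t3 := (isLittleO_log_rpow_atTop (show 0 < η * a / 2 by positivity)).bound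
      (show (0 : ℝ) < 1 / (q * a) by positivity)
    have e1 := t1.eventually_ge_atTop 3
    have e2 := t2.eventually_ge_atTop (2 * A)
    obtain ⟨U0, hU0⟩ := Filter.eventually_atTop.1 (((Filter.eventually_ge_atTop (2 : ℝ)).and
      (t3.and e1)).and e2)
    refine ⟨U0, fun U hU => ?_⟩
    obtain ⟨⟨h1, h2, h3⟩, h4⟩ := hU0 U hU
    refine ⟨h1, ?_, h4⟩
    have hU0' : 0 < U := by linarith
    have hl0 : 0 ≤ Real.log U := Real.log_nonneg (by linarith)
    rw [Real.norm_of_nonneg hl0, Real.norm_of_nonneg (by positivity)] at h2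
    have h5 : q * a * Real.log U ≤ U ^ (η * a / 2) := by
      have h6 := mul_le_mul_of_nonneg_left h2 (show 0 ≤ q * a by positivity)
      rwa [← mul_assoc, mul_one_div_cancel (by positivity), one_mul] at h6
    have h7 : U ^ (η * a) = U ^ (η * a / 2) * U ^ (η * a / 2) := by
      rw [← Real.rpow_add hU0']
      congr 1
      ring
    rw [h7]
    nlinarith
  -- the constant for the number of blocks
  obtain ⟨C3, hC3, hC3'⟩ : ∃ C3 : ℝ, 0 < C3 ∧ ∀ U : ℝ, 2 ≤ U → q * a * Real.log U + 1 ≤ C3 * U ^ (ε / 2) := by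
    refine ⟨q * a / (ε / 2) + 1, by positivity, fun U hU => ?_⟩
    have h1 := Real.log_le_rpow_div (show 0 ≤ U by linarith) (show 0 < ε / 2 by positivity)
    have h2 : 1 ≤ U ^ (ε / 2) := Real.one_le_rpow (by linarith) (by positivity)
    have h3 := mul_le_mul_of_nonneg_left h1 (show 0 ≤ q * a by positivity)
    rw [add_mul, one_mul]
    calc q * a * Real.log U + 1 ≤ q * a * (U ^ (ε / 2) / (ε / 2)) + U ^ (ε / 2) := by linarith
      _ = _ := by ring
  refine ⟨C3 * (10 * A) + 2 * |U0| + 2, by positivity, ?_⟩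
  intro U σ L hU hσ hσ1 hL
  have hx : 0 ≤ 2 - 2 * σ := by linarith
  have hM0 : (0 : ℝ) < 2 ^ k := by positivity
  have hx1 : 2 - 2 * σ ≤ 2 / 2 ^ k := by
    have h1 : (1 / 2 : ℝ) ^ k = 1 / 2 ^ k := by rw [div_pow, one_pow]
    rw [h1] at hσ
    have h2 : (2 : ℝ) / 2 ^ k = 2 * (1 / 2 ^ k) := by ring
    rw [h2]
    linarith
  have hσ34 : 3 / 4 ≤ σ := by
    have h1 : (1 / 2 : ℝ) ^ k ≤ (1 / 2) ^ 2 := pow_le_pow_of_le_one (by norm_num) (by norm_num) hk
    norm_num at h1 hσ
    linarith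
  obtain ⟨-, -, g1, g2, g3, g4, g5⟩ := exponents hk hε hε1 ha ha1 hx hx1 he
  set D' : ℝ := (k : ℝ) - (2 ^ k - 2) * (2 - 2 * σ + 6 * e) with hD'
  have hDE : DE k σ = (2 - 2 * σ) / ((k : ℝ) - (2 ^ k - 2) * (2 - 2 * σ)) := by
    unfold DE
    rw [show 2 * (1 - σ) = 2 - 2 * σ by ring]
  have hDE0 : 0 ≤ DE k σ := by
    rw [hDE]
    exact div_nonneg hx (by linarith)
  have hU1 : 1 < U := by linarith
  have hUpos : 0 < U := by linarith
  by_cases hUU : U0 ≤ U
  · obtain ⟨-, hbig, hA2⟩ := hU0 U hUU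
    have hD'0 : 0 < D' := by linarith
    obtain ⟨α, hα⟩ : ∃ α : ℝ, α = 1 / D' := ⟨_, rfl⟩
    have hα0 : 0 < α := by rw [hα]; positivity
    have hα2 : α ≤ 2 := by
      rw [hα, div_le_iff₀ hD'0]
      linarith
    have hαk : 1 / (k : ℝ) ≤ α := by
      rw [hα]
      exact one_div_le_one_div_of_le hD'0 g2
    set W : ℝ := U ^ (η * a / 2) with hW
    set Yi : ℕ → ℝ := fun i => min (W * Real.exp (i / q)) (U ^ a) with hYi
    have hW1 : 1 < W := Real.one_lt_rpow hU1 (by positivity)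
    have hWZ : W ≤ U ^ a := Real.rpow_le_rpow_of_exponent_le hU1.le (by nlinarith)
    set I : ℕ := ⌈q * a * Real.log U⌉₊ with hI
    -- the bad sets of the blocks
    set Li : ℕ → Finset ℤ := fun i => L.filter (fun m => ∃ z : ℂ, σ - e ≤ z.re ∧ z.re ≤ 4 ∧
      |z.im - m| ≤ 3 ∧ 1 ≤ ‖PB (Yi i) ⌊Yi (i + 1)⌋₊ z‖) with hLi
    have hcov : L ⊆ (Finset.range I).biUnion Li := by
      intro m hm
      obtain ⟨-, -, z, h1, h2, h3, h4⟩ := hL m hm
      obtain ⟨i, hi, h5⟩ := big_block hU1 ha hη hη1 hq1 hbig z (by linarith) h4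
      rw [Finset.mem_biUnion]
      refine ⟨i, hi, ?_⟩
      rw [hLi, Finset.mem_filter]
      exact ⟨hm, z, h1, h2, h3, h5⟩
    have hLib : ∀ i ∈ Finset.range I, ((Li i).card : ℝ) ≤ 10 * A * U ^ (DE k σ + ε / 2) := by
      intro i _
      set Y : ℝ := Yi i with hYdef
      have hWY : W ≤ Y := by
        apply le_min _ hWZ
        have h1 : 1 ≤ Real.exp ((i : ℝ) / q) := Real.one_le_exp (by positivity)
        exact le_mul_of_one_le_right (by linarith) h1
      have hY1 : 1 < Y := by linarith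
      have hY0 : 0 < Y := by linarith
      have hYZ : Y ≤ U ^ a := min_le_right _ _
      obtain ⟨K, hK1, hK2⟩ := choose_K hU1 hY1 hYZ hα0
      have hKq : K ≤ q := by
        have h1 : W ^ K ≤ U ^ (3 : ℝ) := by
          refine (pow_le_pow_left₀ (by linarith) hWY K).trans (hK2.trans ?_)
          exact Real.rpow_le_rpow_of_exponent_le hU1.le (by linarith)
        have h2 : (K : ℝ) * (η * a / 2) ≤ 3 := by
          have h3 := Real.log_le_log (by positivity) h1
          rw [Real.log_pow, hW, Real.log_rpow hUpos, Real.log_rpow hUpos, ← mul_assoc] at h3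
          exact le_of_mul_le_mul_right h3 (Real.log_pos hU1)
        have h4 : (K : ℝ) ≤ 6 / (η * a) := by
          rw [le_div_iff₀ (by positivity)]
          linarith
        exact_mod_cast h4.trans hqb
      have hratio : Yi (i + 1) ≤ Y * Real.exp (1 / q) := by
        have e1 : Real.exp (((i + 1 : ℕ) : ℝ) / q) = Real.exp ((i : ℝ) / q) * Real.exp (1 / q) := by
          rw [← Real.exp_add]
          congr 1
          push_cast
          ring
        have h1 : 1 ≤ Real.exp (1 / (q : ℝ)) := Real.one_le_exp (by positivity)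
        rw [hYdef]
        simp only [hYi]
        rw [min_mul_of_nonneg _ _ (Real.exp_pos _).le]
        apply min_le_min
        · rw [e1, mul_assoc]
        · have h2 : 0 < U ^ a := by positivity
          exact le_mul_of_one_le_right h2.le h1
      have hYs0 : W ≤ Yi (i + 1) := by
        apply le_min _ hWZ
        have h1 : 1 ≤ Real.exp (((i + 1 : ℕ) : ℝ) / q) := Real.one_le_exp (by positivity)
        exact le_mul_of_one_le_right (by linarith) h1
      have hXle : ((⌊Yi (i + 1)⌋₊ : ℕ) : ℝ) ≤ Y * Real.exp (1 / q) :=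
        (Nat.floor_le (by linarith)).trans hratio
      have hexpq : Real.exp (1 / (q : ℝ)) ≤ 3 := by
        have h1 : Real.exp (1 / (q : ℝ)) ≤ Real.exp 1 := by
          apply Real.exp_le_exp.2
          rw [div_le_one hq0]
          exact_mod_cast hq1
        have := Real.exp_one_lt_d9
        linarith
      have hb := hblock Y (σ - 2 * e) ⌊Yi (i + 1)⌋₊ K (Li i) hY1.le (by
          apply Nat.le_floor
          push_cast
          linarith) (by
          have h1 := mul_le_mul_of_nonneg_left hexpq hY0.le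
          linarith) (by
          refine (pow_le_pow_left₀ (Nat.cast_nonneg _) hXle K).trans ?_
          rw [mul_pow, mul_comm, ← Real.exp_nat_mul]
          apply mul_le_mul_of_nonneg_right _ (by positivity)
          apply Real.exp_le_exp.2
          have h1 : (K : ℝ) ≤ q := by exact_mod_cast hKq
          calc (K : ℝ) * (1 / q) ≤ q * (1 / q) := mul_le_mul_of_nonneg_right h1 (by positivity)
            _ = 1 := mul_one_div_cancel hq0.ne'
            _ ≤ 2 := by norm_num) hKq (by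
          linarith) (by linarith) (by
          refine hA2.trans ?_
          have h1 : U ^ (e / k) ≤ (U ^ α) ^ e := by
            rw [← Real.rpow_mul hUpos.le]
            apply Real.rpow_le_rpow_of_exponent_le hU1.le
            calc e / k = 1 / k * e := by ring
              _ ≤ α * e := mul_le_mul_of_nonneg_right hαk he0.le
          exact h1.trans (Real.rpow_le_rpow (by positivity) hK1 he0.le)) (by
          refine le_trans (le_of_eq ?_) g4
          ring) (by
          intro m hm m' hm'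
          have h1 := hL m (Finset.mem_filter.1 hm).1
          have h2 := hL m' (Finset.mem_filter.1 hm').1
          have h3 : |((m - m' : ℤ) : ℝ)| ≤ U := by
            push_cast
            rw [abs_le]
            constructor <;> linarith [h1.1, h1.2.1, h2.1, h2.2.1]
          refine h3.trans ?_
          have e1 : (k : ℝ) - (2 ^ k - 2) * (2 - 2 * (σ - 2 * e) + 2 * e) = D' := by
            rw [hD']
            ring
          rw [e1]
          calc U = (U ^ α) ^ D' := by
                rw [← Real.rpow_mul hUpos.le, hα, one_div_mul_cancel hD'0.ne', Real.rpow_one]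
            _ ≤ (Y ^ K) ^ D' := Real.rpow_le_rpow (by positivity) hK1 hD'0.le) (by
          intro m hm
          obtain ⟨z, h1, h2, h3, h4⟩ := (Finset.mem_filter.1 hm).2
          exact ⟨z, by linarith, h2, h3, h4⟩)
      refine hb.trans ?_
      apply mul_le_mul_of_nonneg_left _ (by positivity)
      have e2 : 2 - 2 * (σ - 2 * e) + e = 2 - 2 * σ + 5 * e := by ring
      rw [e2]
      calc (Y ^ K) ^ (2 - 2 * σ + 5 * e) ≤ (U ^ (α + a)) ^ (2 - 2 * σ + 5 * e) :=
            Real.rpow_le_rpow (by positivity) hK2 (by linarith)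
        _ = U ^ ((α + a) * (2 - 2 * σ + 5 * e)) := by rw [← Real.rpow_mul hUpos.le]
        _ ≤ U ^ (DE k σ + ε / 2) := by
            apply Real.rpow_le_rpow_of_exponent_le hU1.le
            rw [hDE, hα]
            exact g5
    have h1 : (L.card : ℝ) ≤ I * (10 * A * U ^ (DE k σ + ε / 2)) := by
      calc (L.card : ℝ) ≤ (((Finset.range I).biUnion Li).card : ℝ) := by
            exact_mod_cast Finset.card_le_card hcov
        _ ≤ ∑ i ∈ Finset.range I, ((Li i).card : ℝ) := by exact_mod_cast Finset.card_biUnion_le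
        _ ≤ ∑ _i ∈ Finset.range I, 10 * A * U ^ (DE k σ + ε / 2) := Finset.sum_le_sum hLib
        _ = _ := by rw [Finset.sum_const, Finset.card_range, nsmul_eq_mul]
    have h2 : (I : ℝ) ≤ C3 * U ^ (ε / 2) := by
      have h3 : (I : ℝ) < q * a * Real.log U + 1 := Nat.ceil_lt_add_one (by
        have := Real.log_nonneg hU1.le
        positivity)
      exact h3.le.trans (hC3' U hU)
    have h4 : 0 < U ^ (DE k σ + ε / 2) := Real.rpow_pos_of_pos hUpos _
    have h5 : U ^ (ε / 2) * U ^ (DE k σ + ε / 2) = U ^ (DE k σ + ε) := by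
      rw [← Real.rpow_add hUpos]
      congr 1
      ring
    have h6 : U ^ (DE k σ + ε) ≤ U ^ (DE k σ + ε0) :=
      Real.rpow_le_rpow_of_exponent_le hU1.le (by linarith)
    have h7 : 0 < U ^ (DE k σ + ε0) := Real.rpow_pos_of_pos hUpos _
    calc (L.card : ℝ) ≤ I * (10 * A * U ^ (DE k σ + ε / 2)) := h1
      _ ≤ C3 * U ^ (ε / 2) * (10 * A * U ^ (DE k σ + ε / 2)) :=
          mul_le_mul_of_nonneg_right h2 (by positivity)
      _ = C3 * (10 * A) * U ^ (DE k σ + ε) := by rw [← h5]; ring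
      _ ≤ C3 * (10 * A) * U ^ (DE k σ + ε0) := mul_le_mul_of_nonneg_left h6 (by positivity)
      _ ≤ _ := by
          apply mul_le_mul_of_nonneg_right _ h7.le
          have := abs_nonneg U0
          linarith
  · push Not at hUU
    have hsub : L ⊆ Finset.Icc ⌈U⌉ ⌊2 * U⌋ := by
      intro m hm
      obtain ⟨h1, h2, -⟩ := hL m hm
      rw [Finset.mem_Icc]
      exact ⟨Int.ceil_le.2 h1, Int.le_floor.2 h2⟩
    have h1 : (L.card : ℝ) ≤ 2 * |U0| + 2 := by
      have h2 := Finset.card_le_card hsub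
      rw [Int.card_Icc] at h2
      have h3 : ((⌊2 * U⌋ + 1 - ⌈U⌉).toNat : ℝ) ≤ 2 * |U0| + 2 := by
        have h4 : ((⌊2 * U⌋ + 1 - ⌈U⌉).toNat : ℤ) = max (⌊2 * U⌋ + 1 - ⌈U⌉) 0 := by
          rw [Int.toNat_eq_max]
        have h5 : (((⌊2 * U⌋ + 1 - ⌈U⌉).toNat : ℤ) : ℝ) ≤ 2 * |U0| + 2 := by
          rw [h4]
          push_cast
          have := abs_nonneg U0
          apply max_le _ (by linarith)
          have h6 := Int.floor_le (2 * U)
          have h7 := Int.le_ceil U
          have h8 := le_abs_self U0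
          linarith
        exact_mod_cast h5
      exact le_trans (by exact_mod_cast h2) h3
    have h2 : 1 ≤ U ^ (DE k σ + ε0) := Real.one_le_rpow hU1.le (by linarith)
    have h3 : 0 ≤ C3 * (10 * A) := by positivity
    have h4 := abs_nonneg U0
    calc (L.card : ℝ) ≤ (2 * |U0| + 2) * 1 := by linarith
      _ ≤ (C3 * (10 * A) + 2 * |U0| + 2) * U ^ (DE k σ + ε0) :=
        mul_le_mul (by linarith) h2 (by norm_num) (by positivity)

end Pool.Agent.Zk1.BD
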