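import Pool.Agent.H370R2.Local
import Pool.Agent.H296R2.LE.Basic

set_option autoImplicit false

/-!
# Tools for the local theorem: good radii (Chebyshev), the number of zeros inside a circle
-/

namespace Pool.Agent.Zk1.BD

open Complex Filter Topology MeasureTheory Set Metric
open H370.Loc (Pf Pf_zero Pf_cons Pf_diff Pf_ne_zero)

lemma prod_scale (s : Multiset ℝ) (h m x : ℝ) (hh : h ≠ 0) :
    (s.map (fun t => h * x + m - t)).prod = h ^ (Multiset.card s) * (s.map (fun t => x - (t - m) / h)).prod := by
  induction s using Multiset.induction_on with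
  | empty => simp
  | cons t s ih =>
    rw [Multiset.map_cons, Multiset.prod_cons, Multiset.map_cons, Multiset.prod_cons, ih, Multiset.card_cons,
      pow_succ]
    have e : h * x + m - t = h * (x - (t - m) / h) := by field_simp; ring
    rw [e]
    ring

/-- Chebyshev: a good point of an interval. -/
lemma good_pt (s : Multiset ℝ) {a b : ℝ} (hab : a < b) :
    ∃ r ∈ Icc a b, ((b - a) / 4) ^ (Multiset.card s) ≤ |(s.map (fun t => r - t)).prod| := by
  by_contra hcon
  push Not at hcon
  set n := Multiset.card s with hn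
  rcases Nat.eq_zero_or_pos n with h0 | h0
  · have h1 := hcon a ⟨le_rfl, hab.le⟩
    have h2 : s = 0 := by rw [← Multiset.card_eq_zero]; exact h0
    rw [h0, h2] at h1
    simp at h1
  set h : ℝ := (b - a) / 2 with hh
  set m : ℝ := (a + b) / 2 with hm
  have hh0 : 0 < h := by rw [hh]; linarith
  set q : ℝ := (b - a) / 4 with hq
  have hq0 : 0 < q := by rw [hq]; linarith
  set Q : Polynomial ℝ := (s.map (fun t => Polynomial.X - Polynomial.C ((t - m) / h))).prod with hQ
  have hQm : Q.Monic := Polynomial.monic_multiset_prod_of_monic _ _ fun t _ => Polynomial.monic_X_sub_C _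
  have hQd : Q.natDegree = n := by
    have h1 : Q = ((s.map (fun t => (t - m) / h)).map (fun a => Polynomial.X - Polynomial.C a)).prod := by
      rw [hQ, Multiset.map_map]; rfl
    rw [h1, Polynomial.natDegree_multiset_prod_X_sub_C_eq_card, Multiset.card_map]
  have hev : ∀ x : ℝ, Q.eval x = (s.map (fun t => x - (t - m) / h)).prod := by
    intro x
    rw [hQ, Polynomial.eval_multiset_prod, Multiset.map_map]
    simp
  set P : Polynomial ℝ := Polynomial.C (2 ^ n) * Q with hP
  have hPd : P.degree ≤ n := by
    rw [hP]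
    rw [Polynomial.degree_C_mul (by positivity), ← hQd]
    exact Polynomial.degree_le_natDegree
  have hPc : P.coeff n = 2 ^ n := by
    rw [hP, Polynomial.coeff_C_mul]
    have : Q.coeff n = 1 := by
      rw [← hQd]; exact hQm
    rw [this, mul_one]
  have hb : ∀ x ∈ Icc (-1 : ℝ) 1, |P.eval x| ≤ 1 := by
    intro x hx
    have h1 := hcon (h * x + m) ⟨by rw [hh, hm]; nlinarith [hx.1], by rw [hh, hm]; nlinarith [hx.2]⟩
    rw [prod_scale s h m x hh0.ne', ← hn, ← hev, abs_mul, abs_of_pos (by positivity : 0 < h ^ n)] at h1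
    rw [hP, Polynomial.eval_mul, Polynomial.eval_C, abs_mul, abs_of_pos (by positivity : (0 : ℝ) < 2 ^ n)]
    have h2 : h = 2 * q := by rw [hh, hq]; ring
    rw [h2, mul_pow] at h1
    have h3 : 0 < q ^ n := by positivity
    have h4 : q ^ n * (2 ^ n * |Q.eval x|) < q ^ n * 1 := by linarith
    exact (lt_of_mul_lt_mul_left h4 h3.le).le
  have h5 := Polynomial.Chebyshev.coeff_le_of_forall_abs_le_one hPd hb
  rw [hPc] at h5
  have h6 : (2 : ℝ) ^ n = 2 * 2 ^ (n - 1) := by
    rw [← pow_succ', Nat.sub_add_cancel h0]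
  have h7 : (0 : ℝ) < 2 ^ (n - 1) := by positivity
  linarith

lemma Pf_ge_prod (s : Multiset ℂ) (c z : ℂ) :
    |(s.map (fun ρ => ‖z - c‖ - ‖ρ - c‖)).prod| ≤ ‖Pf s z‖ := by
  induction s using Multiset.induction_on with
  | empty => simp [Pf_zero]
  | cons ρ s ih =>
    rw [Pf_cons, Multiset.map_cons, Multiset.prod_cons, abs_mul, norm_mul]
    refine mul_le_mul ?_ ih (abs_nonneg _) (norm_nonneg _)
    have h := abs_norm_sub_norm_le (z - c) (ρ - c)
    have e : z - c - (ρ - c) = z - ρ := by ring
    rwa [e] at h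

/-- A good circle. -/
lemma good_circle (s : Multiset ℂ) (c : ℂ) {a b : ℝ} (hab : a < b) :
    ∃ r ∈ Icc a b, ∀ z : ℂ, ‖z - c‖ = r → ((b - a) / 4) ^ (Multiset.card s) ≤ ‖Pf s z‖ := by
  obtain ⟨r, hr, h⟩ := good_pt (s.map (fun ρ => ‖ρ - c‖)) hab
  refine ⟨r, hr, fun z hz => ?_⟩
  rw [Multiset.card_map, Multiset.map_map] at h
  refine h.trans ?_
  have := Pf_ge_prod s c z
  rw [hz] at this
  exact this

/-- The number of zeros inside a circle. -/
lemma circle_count (s : Multiset ℂ) (c : ℂ) {r : ℝ} (hr : 0 < r) (h : ∀ ρ ∈ s, ‖ρ - c‖ ≠ r) :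
    CircleIntegrable (logDeriv (Pf s)) c r ∧
    (∮ z in C(c, r), logDeriv (Pf s) z) = 2 * Real.pi * I * (Multiset.card (s.filter (fun ρ => ‖ρ - c‖ < r)) : ℂ) := by
  induction s using Multiset.induction_on with
  | empty =>
    have : Pf 0 = fun _ => (1 : ℂ) := funext Pf_zero
    have h2 : logDeriv (Pf 0) = fun _ => (0 : ℂ) := by rw [this]; funext z; simp [logDeriv]
    rw [h2]
    refine ⟨continuousOn_const.circleIntegrable hr.le, ?_⟩
    simp [circleIntegral]
  | cons ρ s ih =>
    obtain ⟨i1, i2⟩ := ih fun ρ' h' => h ρ' (Multiset.mem_cons_of_mem h')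
    have hρ := h ρ (Multiset.mem_cons_self ρ s)
    have hne : ∀ z ∈ sphere c r, ∀ ρ' ∈ ρ ::ₘ s, z ≠ ρ' := by
      intro z hz ρ' h' e
      apply h ρ' h'
      rw [← e, ← dist_eq_norm]
      exact hz
    have heq : EqOn (logDeriv (Pf (ρ ::ₘ s))) (fun z => (z - ρ)⁻¹ + logDeriv (Pf s) z) (sphere c r) := by
      intro z hz
      have e0 : Pf (ρ ::ₘ s) = fun z => (z - ρ) * Pf s z := funext (Pf_cons ρ s)
      have hz1 : z - ρ ≠ 0 := sub_ne_zero.2 (hne z hz ρ (Multiset.mem_cons_self ρ s))
      have hP : Pf s z ≠ 0 := Pf_ne_zero fun ρ' h' => hne z hz ρ' (Multiset.mem_cons_of_mem h')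
      have e1 : logDeriv (fun z => (z - ρ) * Pf s z) z =
          logDeriv (fun z => z - ρ) z + logDeriv (Pf s) z :=
        logDeriv_mul z hz1 hP (differentiableAt_id.sub_const ρ) (Pf_diff s z)
      have e2 : logDeriv (fun z => z - ρ) z = (z - ρ)⁻¹ := by
        rw [logDeriv_apply]
        simp
      simp only
      rw [e0, e1, e2]
    have i3 : CircleIntegrable (fun z => (z - ρ)⁻¹) c r := by
      apply ContinuousOn.circleIntegrable hr.le
      intro z hz
      have hz1 : z - ρ ≠ 0 := sub_ne_zero.2 (hne z hz ρ (Multiset.mem_cons_self ρ s))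
      exact ((continuousAt_id.sub continuousAt_const).inv₀ hz1).continuousWithinAt
    have i4 : CircleIntegrable (fun z => (z - ρ)⁻¹ + logDeriv (Pf s) z) c r := i3.add i1
    refine ⟨?_, ?_⟩
    · refine (circleIntegrable_congr ?_).2 i4
      rw [abs_of_pos hr]
      exact heq
    · rw [circleIntegral.integral_congr hr.le heq, circleIntegral.integral_add i3 i1, i2]
      rw [Multiset.filter_cons]
      rcases lt_or_gt_of_ne hρ with h1 | h1
      · rw [if_pos h1, circleIntegral.integral_sub_inv_of_mem_ball (by rw [mem_ball, dist_eq_norm]; exact h1)]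
        simp only [Multiset.card_add, Multiset.card_singleton]
        push_cast
        ring
      · rw [if_neg (by linarith)]
        have h3 : (∮ z in C(c, r), (z - ρ)⁻¹) = 0 := by
          apply Complex.circleIntegral_eq_zero_of_differentiable_on_off_countable hr.le
            Set.countable_empty
          · intro z hz
            have hz1 : z - ρ ≠ 0 := by
              intro e
              rw [sub_eq_zero] at e
              rw [e, mem_closedBall, dist_eq_norm] at hz
              linarith
            exact ((continuousAt_id.sub continuousAt_const).inv₀ hz1).continuousWithinAt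
          · intro z hz
            have hz' := hz.1
            have hz1 : z - ρ ≠ 0 := by
              intro e
              rw [sub_eq_zero] at e
              rw [e, mem_ball, dist_eq_norm] at hz'
              linarith
            exact (differentiableAt_id.sub_const ρ).inv hz1
        rw [h3]
        simp

end Pool.Agent.Zk1.BD
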