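import Mathlib

set_option autoImplicit false

/-!
# Beyond the density hypothesis, outside dense clusters

Theorem: for every `ε > 0` there are `c > 0`, `C` such that for all `k ≥ 2`, `1 - 2^(-k) ≤ σ ≤ 1`, `T ≥ 2` the number of zeros
`ρ = β + iγ` of zeta with `β ≥ σ`, `0 < γ ≤ T`, near which there are fewer than `c log γ` zeros `ρ'` with `β' ≥ β - ε`,
`|γ' - γ| ≤ 1`, is at most `C T ^ (2(1-σ)/(k - (2^k-2)(2-2σ)) + ε)` (`k = 2`: exponent `(1-σ)/(2σ-1)`).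
-/

namespace Pool.Agent.Zk1.BD

open Complex Filter Topology MeasureTheory Set

/-- The sum of `p ^ (-s)` over the primes `p ≤ X`. -/
noncomputable def PS (X : ℝ) (s : ℂ) : ℂ :=
  ∑ p ∈ (Finset.range (⌊X⌋₊ + 1)).filter Nat.Prime, (p : ℂ) ^ (-s)

/-- The exponent from the `k`-th derivative test. -/
noncomputable def DE (k : ℕ) (σ : ℝ) : ℝ := 2 * (1 - σ) / (k - (2 ^ k - 2) * (2 - 2 * σ))

/-- The zeros near `ρ`, not much to the left of it. -/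
def near (ε : ℝ) (ρ : ℂ) : Set ℂ := {s : ℂ | riemannZeta s = 0 ∧ ρ.re - ε ≤ s.re ∧ |s.im - ρ.im| ≤ 1}

/-- number of zeros with multiplicity -/
noncomputable def num (A : Set ℂ) : ℕ := ∑ᶠ s ∈ A, analyticOrderNatAt riemannZeta s

/-! ## 1. The local theorem (helper1) -/

/-- If a zero is not in a dense cluster then the sum over the primes `p ≤ T ^ a` is large near it. -/
def S_LOCAL : Prop := ∀ ε : ℝ, 0 < ε → ε ≤ 1 / 20 → ∃ η : ℝ, 0 < η ∧ η ≤ 1 ∧ ∀ a : ℝ, 0 < a → a ≤ 1 → ∃ c U0 : ℝ, 0 < c ∧ 2 ≤ U0 ∧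
  ∀ (U : ℝ) (ρ : ℂ), U0 ≤ U → riemannZeta ρ = 0 → 3 / 4 ≤ ρ.re → U ≤ ρ.im → ρ.im ≤ 2 * U →
  (num (near ε ρ) : ℝ) < c * Real.log U →
  ∃ z : ℂ, ρ.re - ε ≤ z.re ∧ z.re ≤ 4 ∧ |z.im - ρ.im| ≤ 2 ∧ U ^ (η * a) ≤ ‖PS (U ^ a) z‖

/-! ## 2. Large values of prime sums at free length

Proof of `S_BAD`. Given `k, ε`, take `δ` small in terms of `ε, k` and then `a ≤ a1` small in terms of `ε, k, δ`. The primes
`p ≤ U^(η a / 2)` contribute at most `U^(η a / 2)`. Cut `(U^(η a/2), U^a]` into blocks `(Y, Y e^(1/q)]`, `q` = the largest power that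
will be used (bounded in terms of `a, η, k`); there are `O(log U)` blocks, so one of them has `|P_Y(z)| ≥ 1` for
`≫ |L| / log U` of the `m ∈ L`. Choose `K ≤ q` with `N = Y^K ∈ [U^α, U^(α + a)]`,
`α = 1 / (k - (2^k - 2)(2 - 2(σ - 2δ)))`. `‖P_Y^K‖²` at `z` is at most `C ∫∫` over a disc of radius `δ` around `z` (mean value
property). For fixed real shifts `u ∈ [σ - 2δ, 5]`, `v ∈ [-4, 4]` the Halasz-Montgomery inequality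
(`Pool.Agent.Q209.KS.hmg`, coefficients `b(n) n^(-u - iv)`; the row sums of the kernel do not depend on the shift) gives
`∑_{m ∈ L'} |P_Y^K(u + i(m + v))|² ≤ B(L') ∑ n |b(n)|² n^(-2u) ≤ B(L') K! C N^(2 - 2σ + 4δ)`
(`∑ n^(1-2u) r(n)² ≤ K! (∑_{p} p^(1-2u))^K`). With the `j`-th derivative tests (`j ≤ k`, `Pool.Agent.W347.EH.kt`, cf. `S_KER`, `S_SB3`
in `Pool/Agent/Q240/KS/Stm1.lean` and `Pool.Agent.Q209.KS.hu`) the kernel satisfies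
`‖kn N τ‖ ≤ C N^δ (1/τ² + N^(-(2 - 2σ + 4δ) - 2δ))` for `0 < |τ| ≤ T0 := N^(k - (2^k - 2)(2 - 2σ + 4δ) - C δ)`, so for `L'` in an
interval of length `T0`: `|L'| ≤ C N^(2 - 2σ + 6δ)`, and `|L| ≤ C (log U)² N^(2 - 2σ + 6δ) (1 + U / T0)`. -/
def S_BAD : Prop := ∀ (k : ℕ) (ε : ℝ), 2 ≤ k → 0 < ε → ∃ δ a1 : ℝ, 0 < δ ∧ 0 < a1 ∧ ∀ a η : ℝ, 0 < a → a ≤ a1 → 0 < η → η ≤ 1 →
  ∃ C : ℝ, 0 < C ∧ ∀ (U σ : ℝ) (L : Finset ℤ), 2 ≤ U → 1 - (1 / 2) ^ k ≤ σ → σ ≤ 1 →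
  (∀ m ∈ L, U ≤ m ∧ (m : ℝ) ≤ 2 * U ∧ ∃ z : ℂ, σ - δ ≤ z.re ∧ z.re ≤ 4 ∧ |z.im - m| ≤ 3 ∧ U ^ (η * a) ≤ ‖PS (U ^ a) z‖) →
  (L.card : ℝ) ≤ C * U ^ (DE k σ + ε)

end Pool.Agent.Zk1.BD
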