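import Pool.Agent.Zk1.BD.Core2
import Pool.Agent.Zk1.BD.Spec
import Pool.Agent.Zk2.DH.ZP0
import Pool.Agent.H370R2.DirGood

set_option autoImplicit false

/-!
# The local theorem for zeta
-/

namespace Pool.Agent.Zk1.BD

open Complex Filter Topology MeasureTheory Set Metric
open Pool.Agent.Zk1.DH (PP)
open Pool.Agent.Zk2.DH (PP_ne PP_diff PP_ana rough_one zeta_ana zeta_diff)

lemma one_sub_le (w : ℂ) : ‖1 - w‖ ≤ Real.exp (-w.re + ‖w‖ ^ 2 / 2) := by
  have h1 : ‖1 - w‖ ^ 2 = 1 + (-(2 * w.re) + ‖w‖ ^ 2) := by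
    rw [← Complex.normSq_eq_norm_sq, ← Complex.normSq_eq_norm_sq, Complex.normSq_apply, Complex.normSq_apply]
    simp
    ring
  have h2 : ‖1 - w‖ ^ 2 ≤ Real.exp (-w.re + ‖w‖ ^ 2 / 2) ^ 2 := by
    rw [h1, ← Real.exp_nat_mul]
    have h3 := Real.add_one_le_exp (-(2 * w.re) + ‖w‖ ^ 2)
    have e : ((2 : ℕ) : ℝ) * (-w.re + ‖w‖ ^ 2 / 2) = -(2 * w.re) + ‖w‖ ^ 2 := by push_cast; ring
    rw [e]
    linarith
  exact le_of_sq_le_sq h2 (Real.exp_pos _).le

/-- a constant -/
noncomputable def Cp : ℝ := ∑' n : ℕ, 1 / (n : ℝ) ^ (7 / 5 : ℝ)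

lemma sum_sq_le (X : ℝ) {s : ℂ} (hs : 7 / 10 ≤ s.re) :
    ∑ p ∈ (Finset.range (⌊X⌋₊ + 1)).filter Nat.Prime, ‖(p : ℂ) ^ (-s)‖ ^ 2 ≤ Cp := by
  have hsum : Summable fun n : ℕ => 1 / (n : ℝ) ^ (7 / 5 : ℝ) :=
    Real.summable_one_div_nat_rpow.mpr (by norm_num)
  refine le_trans ?_ (hsum.sum_le_tsum ((Finset.range (⌊X⌋₊ + 1)).filter Nat.Prime)
    (fun n _ => by positivity))
  refine Finset.sum_le_sum fun p hp => ?_
  have hp' : p.Prime := (Finset.mem_filter.1 hp).2
  have hp0 : 0 < p := hp'.pos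
  have hp1 : (1 : ℝ) ≤ p := by exact_mod_cast hp'.one_le
  rw [Complex.norm_natCast_cpow_of_pos hp0, Complex.neg_re, ← Real.rpow_natCast, ← Real.rpow_mul (by positivity),
    one_div, ← Real.rpow_neg (by positivity)]
  apply Real.rpow_le_rpow_of_exponent_le hp1
  push_cast
  linarith

lemma inv_PP_le (X : ℝ) {s : ℂ} (hs : 7 / 10 ≤ s.re) : ‖(PP X s)⁻¹‖ ≤ Real.exp (‖PS X s‖ + Cp) := by
  unfold PP
  rw [← Finset.prod_inv_distrib, norm_prod]
  have h1 : ∀ p ∈ (Finset.range (⌊X⌋₊ + 1)).filter Nat.Prime, ‖(1 - (p : ℂ) ^ (-s))⁻¹⁻¹‖ ≤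
      Real.exp (-((p : ℂ) ^ (-s)).re + ‖(p : ℂ) ^ (-s)‖ ^ 2 / 2) := by
    intro p _
    rw [inv_inv]
    exact one_sub_le _
  refine (Finset.prod_le_prod (fun _ _ => norm_nonneg _) h1).trans ?_
  rw [← Real.exp_sum]
  apply Real.exp_le_exp.2
  rw [Finset.sum_add_distrib, Finset.sum_neg_distrib, ← Finset.sum_div]
  have h2 : ∑ p ∈ (Finset.range (⌊X⌋₊ + 1)).filter Nat.Prime, ((p : ℂ) ^ (-s)).re = (PS X s).re := by
    unfold PS
    rw [Complex.re_sum]
  rw [h2]
  have h3 := sum_sq_le X hs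
  have h4 := Complex.abs_re_le_norm (PS X s)
  have h5 := neg_abs_le (PS X s).re
  have h6 : 0 ≤ ∑ p ∈ (Finset.range (⌊X⌋₊ + 1)).filter Nat.Prime, ‖(p : ℂ) ^ (-s)‖ ^ 2 :=
    Finset.sum_nonneg fun _ _ => by positivity
  linarith

lemma PS_far (X : ℝ) {s : ℂ} (hs : 2 ≤ s.re) : ‖PS X s‖ ≤ Cp := by
  have hsum : Summable fun n : ℕ => 1 / (n : ℝ) ^ (7 / 5 : ℝ) :=
    Real.summable_one_div_nat_rpow.mpr (by norm_num)
  unfold PS
  refine (norm_sum_le _ _).trans (le_trans ?_ (hsum.sum_le_tsum ((Finset.range (⌊X⌋₊ + 1)).filter Nat.Prime)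
    (fun n _ => by positivity)))
  refine Finset.sum_le_sum fun p hp => ?_
  have hp' : p.Prime := (Finset.mem_filter.1 hp).2
  have hp0 : 0 < p := hp'.pos
  have hp1 : (1 : ℝ) ≤ p := by exact_mod_cast hp'.one_le
  rw [Complex.norm_natCast_cpow_of_pos hp0, Complex.neg_re, one_div, ← Real.rpow_neg (by positivity)]
  apply Real.rpow_le_rpow_of_exponent_le hp1
  linarith

lemma zeta_far {s : ℂ} (hs : 2 ≤ s.re) : ‖riemannZeta s‖ ≤ 3 := by
  have h := rough_one 1 le_rfl s hs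
  have hP : PP 1 s = 1 := by
    unfold PP
    apply Finset.prod_eq_one
    intro p hp
    obtain ⟨h1, h2⟩ := Finset.mem_filter.1 hp
    rw [Finset.mem_range] at h1
    have h3 := h2.two_le
    simp at h1
    omega
  rw [hP, div_one, Real.one_rpow, mul_one] at h
  calc ‖riemannZeta s‖ = ‖(riemannZeta s - 1) + 1‖ := by congr 1; ring
    _ ≤ ‖riemannZeta s - 1‖ + ‖(1 : ℂ)‖ := norm_add_le _ _
    _ ≤ 3 := by rw [norm_one]; linarith

/-- `zeta / PP` -/
noncomputable def QQ (X : ℝ) (s : ℂ) : ℂ := riemannZeta s / PP X s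

lemma QQ_ana (X : ℝ) {s : ℂ} (hs : 0 < s.re) (h1 : s ≠ 1) : AnalyticAt ℂ (QQ X) s :=
  (zeta_ana h1).div (PP_ana X hs) (PP_ne X s hs)

lemma QQ_order (X : ℝ) {s : ℂ} (hs : 0 < s.re) (h1 : s ≠ 1) :
    analyticOrderNatAt (QQ X) s = analyticOrderNatAt riemannZeta s := by
  have h2 : AnalyticAt ℂ (fun s => (PP X s)⁻¹) s := (PP_ana X hs).inv (PP_ne X s hs)
  have e : QQ X = riemannZeta * fun s => (PP X s)⁻¹ := by
    funext z
    simp only [QQ, Pi.mul_apply, div_eq_mul_inv]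
  unfold analyticOrderNatAt
  rw [e, analyticOrderAt_mul (zeta_ana h1) h2]
  have h3 : analyticOrderAt (fun s => (PP X s)⁻¹) s = 0 := by
    rw [h2.analyticOrderAt_eq_zero]
    exact inv_ne_zero (PP_ne X s hs)
  rw [h3, add_zero]

lemma QQ_zero (X : ℝ) {s : ℂ} (hs : 0 < s.re) (h : QQ X s = 0) : riemannZeta s = 0 := by
  unfold QQ at h
  rcases div_eq_zero_iff.1 h with h | h
  · exact h
  · exact absurd h (PP_ne X s hs)

lemma zero_re_lt {s : ℂ} (hs : riemannZeta s = 0) : s.re < 1 := by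
  by_contra h
  exact riemannZeta_ne_zero_of_one_le_re (not_lt.1 h) hs

lemma near_finite {ε : ℝ} {ρ : ℂ} (h1 : 0 < ρ.re - ε) (h2 : 4 ≤ ρ.im) : (near ε ρ).Finite := by
  refine (H370.zset_finite H370.good_zeta (ρ.im - 2) (ρ.im + 2) (by linarith)).subset ?_
  rintro s ⟨a1, a2, a3⟩
  obtain ⟨b1, b2⟩ := abs_le.1 a3
  exact ⟨by linarith, zero_re_lt a1, by linarith, by linarith, a1⟩

/-- the growth condition -/
lemma grow_cond (δ a A C : ℝ) (hδ : 0 < δ) (ha : 0 < a) (hA : 0 ≤ A) : ∃ U0 : ℝ, 4 ≤ U0 ∧ ∀ U : ℝ, U0 ≤ U →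
    C + A * Real.log U + Real.exp (δ / 2 * (a * Real.log U)) ≤ Real.exp (δ * (a * Real.log U)) := by
  have h1 : Tendsto (fun U : ℝ => Real.exp (δ / 2 * (a * Real.log U))) atTop atTop := by
    apply Real.tendsto_exp_atTop.comp
    have : Tendsto (fun U : ℝ => (δ / 2 * a) * Real.log U) atTop atTop :=
      Real.tendsto_log_atTop.const_mul_atTop (by positivity)
    refine this.congr fun U => by ring
  have h2 : ∀ᶠ U : ℝ in atTop, A * Real.log U ≤ (2 * A / (δ * a) + 1) * Real.exp (δ / 2 * (a * Real.log U)) := by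
    filter_upwards [eventually_ge_atTop 1] with U hU
    have hl : 0 ≤ Real.log U := Real.log_nonneg hU
    have h3 := Real.add_one_le_exp (δ / 2 * (a * Real.log U))
    have h4 : A * Real.log U = 2 * A / (δ * a) * (δ / 2 * (a * Real.log U)) := by field_simp
    rw [h4]
    have h5 : 0 ≤ 2 * A / (δ * a) := by positivity
    have h6 : 0 < Real.exp (δ / 2 * (a * Real.log U)) := Real.exp_pos _
    nlinarith [mul_le_mul_of_nonneg_left h3 h5]
  have h7 := h1.eventually_ge_atTop (|C| + (2 * A / (δ * a) + 1) + 1 + 1)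
  obtain ⟨U1, hU1⟩ := eventually_atTop.1 (h2.and h7)
  refine ⟨max U1 4, le_max_right _ _, fun U hU => ?_⟩
  obtain ⟨g1, g2⟩ := hU1 U ((le_max_left _ _).trans hU)
  set y := Real.exp (δ / 2 * (a * Real.log U)) with hy
  have e : Real.exp (δ * (a * Real.log U)) = y * y := by
    rw [hy, ← Real.exp_add]; congr 1; ring
  rw [e]
  have h8 : 0 ≤ 2 * A / (δ * a) := by positivity
  have h9 := le_abs_self C
  have h10 := abs_nonneg C
  have hy1 : 1 ≤ y := by linarith
  calc C + A * Real.log U + y ≤ |C| * y + (2 * A / (δ * a) + 1) * y + 1 * y := by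
        have : |C| * 1 ≤ |C| * y := by gcongr
        linarith
    _ = (|C| + (2 * A / (δ * a) + 1) + 1) * y := by ring
    _ ≤ y * y := by gcongr; linarith

theorem sLOCAL : S_LOCAL := by
  intro ε hε hε1
  obtain ⟨δ, κ, X0, hδ, hδ1, hκ, hcore⟩ := core ε hε hε1
  refine ⟨δ / 2, by positivity, by linarith, ?_⟩
  intro a ha ha1
  obtain ⟨C, A, hC, hA, hgr⟩ := H370.good_zeta.growth
  obtain ⟨U1, hU1, hgc⟩ := grow_cond δ a A (Real.log (3 + C * 3 ^ A) + 2 * Cp) hδ ha hA.le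
  set x1 : ℝ := max X0 60 with hx1
  refine ⟨κ * a, max U1 (Real.exp (x1 / a)), by positivity, (by linarith [le_max_left U1 (Real.exp (x1 / a))]), ?_⟩
  intro U ρ hU hρ0 hρre hρi1 hρi2 hnum
  by_contra hcon
  push Not at hcon
  have hU1' : U1 ≤ U := (le_max_left _ _).trans hU
  have hU4 : 4 ≤ U := hU1.trans hU1'
  have hUx : Real.exp (x1 / a) ≤ U := (le_max_right _ _).trans hU
  have hU0 : 0 < U := by linarith
  have hρlt := zero_re_lt hρ0
  set x : ℝ := a * Real.log U with hx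
  have hxx1 : x1 ≤ x := by
    have h1 : x1 / a ≤ Real.log U := by
      rw [Real.le_log_iff_exp_le hU0]; exact hUx
    rw [div_le_iff₀ ha] at h1
    rw [hx]; linarith
  have hx0 : X0 ≤ x := (le_max_left _ _).trans hxx1
  have hx60 : 60 ≤ x := (le_max_right _ _).trans hxx1
  set X : ℝ := U ^ a with hX
  have hXx : X = Real.exp x := by
    rw [hX, Real.rpow_def_of_pos hU0, hx]; congr 1; ring
  have hX1 : 1 ≤ X := by rw [hXx]; exact Real.one_le_exp (by linarith)
  set c : ℂ := ρ + ((8 / 5 : ℝ) : ℂ) with hc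
  have hcre : c.re = ρ.re + 8 / 5 := by rw [hc, Complex.add_re, Complex.ofReal_re]
  have hcim : c.im = ρ.im := by rw [hc, Complex.add_im, Complex.ofReal_im, add_zero]
  have hball : ∀ z ∈ closedBall c (8 / 5 + ε), ρ.re - ε ≤ z.re ∧ |z.im - ρ.im| ≤ 8 / 5 + ε := by
    intro z hz
    rw [mem_closedBall, dist_eq_norm] at hz
    have h1 := Complex.abs_re_le_norm (z - c)
    have h2 := Complex.abs_im_le_norm (z - c)
    rw [Complex.sub_re, hcre] at h1
    rw [Complex.sub_im, hcim] at h2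
    obtain ⟨h3, h4⟩ := abs_le.1 (h1.trans hz)
    exact ⟨by linarith, h2.trans hz⟩
  have him : ∀ z ∈ closedBall c (8 / 5 + ε), 2 ≤ z.im ∧ z.im ≤ 3 * U := by
    intro z hz
    obtain ⟨h1, h2⟩ := abs_le.1 (hball z hz).2
    constructor <;> linarith
  have hne1 : ∀ z ∈ closedBall c (8 / 5 + ε), z ≠ 1 := by
    intro z hz e
    have := (him z hz).1
    rw [e, Complex.one_im] at this
    linarith
  have hpos : ∀ z ∈ closedBall c (8 / 5 + ε), 7 / 10 ≤ z.re := fun z hz => by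
    have := (hball z hz).1
    linarith
  have hCp : 0 ≤ Cp := tsum_nonneg fun n => by positivity
  have hUη : (1 : ℝ) ≤ U ^ (δ / 2 * a) := Real.one_le_rpow (by linarith) (by positivity)
  have hUηe : U ^ (δ / 2 * a) = Real.exp (δ / 2 * x) := by
    rw [Real.rpow_def_of_pos hU0, hx]; congr 1; ring
  have hPSb : ∀ z ∈ closedBall c (8 / 5 + ε), ‖PS X z‖ ≤ U ^ (δ / 2 * a) + Cp := by
    intro z hz
    rcases le_or_gt z.re 4 with h4 | h4
    · have := hcon z (hball z hz).1 h4 ((hball z hz).2.trans (by linarith))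
      linarith
    · have := PS_far X (s := z) (by linarith)
      linarith
  have hfb : ∀ z ∈ closedBall c (8 / 5 + ε), ‖QQ X z‖ ≤ Real.exp (Real.exp (δ * x)) := by
    intro z hz
    obtain ⟨hi1, hi2⟩ := him z hz
    have hre := hpos z hz
    have hζ : ‖riemannZeta z‖ ≤ (3 + C * 3 ^ A) * U ^ A := by
      have hUA : 1 ≤ U ^ A := Real.one_le_rpow (by linarith) hA.le
      have h3A : 0 < (3 : ℝ) ^ A := by positivity
      rcases le_or_gt z.re 4 with h4 | h4
      · have h5 := hgr z (by linarith) h4 (by linarith)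
        have h6 : z.im ^ A ≤ (3 * U) ^ A := Real.rpow_le_rpow (by linarith) hi2 hA.le
        rw [Real.mul_rpow (by norm_num) hU0.le] at h6
        calc ‖riemannZeta z‖ ≤ C * z.im ^ A := h5
          _ ≤ C * (3 ^ A * U ^ A) := by gcongr
          _ = (C * 3 ^ A) * U ^ A := by ring
          _ ≤ (3 + C * 3 ^ A) * U ^ A := by gcongr; linarith
      · have h5 := zeta_far (s := z) (by linarith)
        calc ‖riemannZeta z‖ ≤ 3 * 1 := by linarith
          _ ≤ (3 + C * 3 ^ A) * U ^ A := by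
            apply mul_le_mul _ hUA (by norm_num) (by positivity)
            have : 0 < C * 3 ^ A := by positivity
            linarith
    have h7 := inv_PP_le X hre
    have h8 := hPSb z hz
    have hK : 0 < 3 + C * 3 ^ A := by positivity
    calc ‖QQ X z‖ = ‖riemannZeta z‖ * ‖(PP X z)⁻¹‖ := by
          unfold QQ
          rw [div_eq_mul_inv, norm_mul]
      _ ≤ ((3 + C * 3 ^ A) * U ^ A) * Real.exp (‖PS X z‖ + Cp) := by gcongr
      _ ≤ ((3 + C * 3 ^ A) * U ^ A) * Real.exp (Real.exp (δ / 2 * x) + Cp + Cp) := by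
          gcongr
          rw [← hUηe]; exact h8
      _ = Real.exp ((Real.log (3 + C * 3 ^ A) + 2 * Cp) + A * Real.log U + Real.exp (δ / 2 * (a * Real.log U))) := by
          have e1 : U ^ A = Real.exp (A * Real.log U) := by
            rw [Real.rpow_def_of_pos hU0]; congr 1; ring
          have e2 : (3 + C * 3 ^ A) = Real.exp (Real.log (3 + C * 3 ^ A)) := (Real.exp_log hK).symm
          rw [e1, ← hx]
          conv_lhs => rw [e2]
          rw [← Real.exp_add, ← Real.exp_add]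
          congr 1
          ring
      _ ≤ _ := Real.exp_le_exp.2 (hgc U hU1')
  have hana : AnalyticOnNhd ℂ (QQ X) (closedBall c (8 / 5 + ε)) := fun z hz =>
    QQ_ana X (by linarith [hpos z hz]) (hne1 z hz)
  -- near the centre
  have hQ1 : ∀ z : ℂ, 11 / 5 ≤ z.re → ‖QQ X z - 1‖ ≤ 2 * Real.exp (-(x / 5)) := by
    intro z hz
    refine (rough_one X hX1 z (by linarith)).trans ?_
    have : X ^ (-(z.re - 2)) ≤ Real.exp (-(x / 5)) := by
      rw [hXx, ← Real.exp_mul]
      apply Real.exp_le_exp.2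
      nlinarith
    linarith
  have hex : Real.exp (-(x / 5)) ≤ 1 / 8 := by
    have h1 : Real.exp (-(x / 5)) ≤ Real.exp (-3) := Real.exp_le_exp.2 (by linarith)
    refine h1.trans ?_
    rw [Real.exp_neg, inv_eq_one_div]
    apply one_div_le_one_div_of_le (by norm_num)
    have h10 : Real.exp 3 = Real.exp 1 ^ 3 := by rw [← Real.exp_nat_mul]; norm_num
    have h11 := Real.exp_one_gt_d9
    rw [h10]
    calc (8 : ℝ) = 2 ^ 3 := by norm_num
      _ ≤ Real.exp 1 ^ 3 := by gcongr; linarith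
  have hQh : ∀ z : ℂ, 11 / 5 ≤ z.re → 1 / 2 ≤ ‖QQ X z‖ := by
    intro z hz
    have h1 := hQ1 z hz
    have h2 : (1 : ℝ) ≤ ‖QQ X z‖ + ‖QQ X z - 1‖ := by
      calc (1 : ℝ) = ‖(1 : ℂ)‖ := by rw [norm_one]
        _ = ‖QQ X z - (QQ X z - 1)‖ := by congr 1; ring
        _ ≤ _ := norm_sub_le _ _
    linarith
  have hfc : 1 / 2 ≤ ‖QQ X c‖ := hQh c (by rw [hcre]; linarith)
  have hfs : ∀ z ∈ closedBall c (1 / 16), QQ X z ≠ 0 ∧ ‖logDeriv (QQ X) z‖ ≤ Real.exp (-(x / 8)) := by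
    intro z hz
    rw [mem_closedBall, dist_eq_norm] at hz
    have h1 := Complex.abs_re_le_norm (z - c)
    rw [Complex.sub_re, hcre] at h1
    obtain ⟨h3, h4⟩ := abs_le.1 (h1.trans hz)
    have hzr : 9 / 4 ≤ z.re := by linarith
    have h5 := hQh z (by linarith)
    have h6 : QQ X z ≠ 0 := by
      intro e
      rw [e, norm_zero] at h5
      linarith
    refine ⟨h6, ?_⟩
    have hd : DifferentiableOn ℂ (fun w => QQ X w - 1) (closedBall z (1 / 20)) := by
      intro w hw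
      rw [mem_closedBall, dist_eq_norm] at hw
      have h7 := Complex.abs_re_le_norm (w - z)
      rw [Complex.sub_re] at h7
      obtain ⟨h8, h9⟩ := abs_le.1 (h7.trans hw)
      have hw1 : w ≠ 1 := by
        intro e
        rw [e, Complex.one_re] at h8
        linarith
      exact ((QQ_ana X (by linarith) hw1).differentiableAt.sub_const 1).differentiableWithinAt
    have h7 : ‖deriv (fun w => QQ X w - 1) z‖ ≤ 2 * Real.exp (-(x / 5)) / (1 / 20) := by
      apply Complex.norm_deriv_le_of_forall_mem_sphere_norm_le (by norm_num)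
      · apply DifferentiableOn.diffContOnCl
        rw [closure_ball _ (by norm_num)]
        exact hd
      · intro w hw
        rw [mem_sphere, dist_eq_norm] at hw
        apply hQ1
        have h7 := Complex.abs_re_le_norm (w - z)
        rw [Complex.sub_re] at h7
        obtain ⟨h8, h9⟩ := abs_le.1 (h7.trans hw.le)
        linarith
    rw [deriv_sub_const] at h7
    rw [logDeriv_apply, norm_div]
    calc ‖deriv (QQ X) z‖ / ‖QQ X z‖ ≤ (2 * Real.exp (-(x / 5)) / (1 / 20)) / (1 / 2) := by gcongr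
      _ = 80 * Real.exp (-(x / 5)) := by ring
      _ ≤ Real.exp (-(x / 8)) := by
          have e1 : Real.exp (-(x / 8)) = Real.exp (3 * x / 40) * Real.exp (-(x / 5)) := by
            rw [← Real.exp_add]; congr 1; ring
          rw [e1]
          gcongr
          have h10 : Real.exp (9 / 2) ≤ Real.exp (3 * x / 40) := Real.exp_le_exp.2 (by linarith)
          refine le_trans ?_ h10
          have h11 := Real.exp_one_gt_d9
          have h12 : Real.exp (9 / 2) ^ 2 = Real.exp 1 ^ 9 := by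
            rw [← Real.exp_nat_mul, ← Real.exp_nat_mul]; norm_num
          have h13 : (80 : ℝ) ^ 2 ≤ Real.exp (9 / 2) ^ 2 := by
            rw [h12]
            calc (80 : ℝ) ^ 2 ≤ 2.7 ^ 9 := by norm_num
              _ ≤ Real.exp 1 ^ 9 := by gcongr; linarith
          exact le_of_sq_le_sq h13 (Real.exp_pos _).le
  have hf0 : QQ X (c - ((8 / 5 : ℝ) : ℂ)) = 0 := by
    have e : c - ((8 / 5 : ℝ) : ℂ) = ρ := by rw [hc]; ring
    rw [e]
    unfold QQ
    rw [hρ0, zero_div]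
  obtain ⟨S, hS, hSx⟩ := hcore x (QQ X) c hx0 hana hfb hfc hfs hf0
  -- comparison
  have hfin := near_finite (ε := ε) (ρ := ρ) (by linarith) (by linarith)
  have hsub : S ⊆ hfin.toFinset := by
    intro z hz
    rw [Set.Finite.mem_toFinset]
    obtain ⟨h1, h2⟩ := hS z hz
    have hzr := hpos z h1
    have hz0 := QQ_zero X (by linarith) h2
    have hzlt := zero_re_lt hz0
    refine ⟨hz0, (hball z h1).1, ?_⟩
    rw [mem_closedBall, dist_eq_norm] at h1
    have h3 : ‖z - c‖ ^ 2 ≤ (8 / 5 + ε) ^ 2 := pow_le_pow_left₀ (norm_nonneg _) h1 2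
    rw [← Complex.normSq_eq_norm_sq, Complex.normSq_apply, Complex.sub_re, Complex.sub_im, hcre, hcim] at h3
    have h4 : (27 / 20) ^ 2 ≤ (z.re - (ρ.re + 8 / 5)) * (z.re - (ρ.re + 8 / 5)) := by nlinarith
    have h5 : (8 / 5 + ε) ^ 2 ≤ (33 / 20) ^ 2 := by gcongr; linarith
    rw [abs_le_one_iff_mul_self_le_one]
    linarith
  have h6 : (∑ z ∈ S, (analyticOrderNatAt (QQ X) z : ℝ)) ≤ (num (near ε ρ) : ℝ) := by
    unfold num
    rw [finsum_mem_eq_finite_toFinset_sum _ hfin]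
    push_cast
    refine le_trans (le_of_eq ?_) (Finset.sum_le_sum_of_subset_of_nonneg hsub fun _ _ _ => by positivity)
    refine Finset.sum_congr rfl fun z hz => ?_
    obtain ⟨h1, h2⟩ := hS z hz
    rw [QQ_order X (by linarith [hpos z h1]) (hne1 z h1)]
  have h7 : κ * x = κ * a * Real.log U := by rw [hx]; ring
  linarith

end Pool.Agent.Zk1.BD
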