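import Pool.Agent.Zk1.BD.B4
import Pool.Agent.Zk1.BD.Core3
import Pool.Agent.Zk69.BD.Kx
import Pool.Agent.H31R2.DH.Assemble

/-!
# Beyond the density hypothesis, outside dense clusters: final assembly
-/

set_option autoImplicit false

namespace Pool.Agent.Zk1.BD

open Complex Finset

theorem skx : S_KX := Pool.Agent.Zk69.BD.kx

theorem bad : S_BAD := sBAD skx

/-- The zeros with `β ≥ σ`, `0 < γ ≤ T`, near which there are fewer than `c log γ` zeros with `β' ≥ β - ε`, `|γ' - γ| ≤ 1`. -/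
def sparse (c ε σ T : ℝ) : Set ℂ := {ρ : ℂ | riemannZeta ρ = 0 ∧ σ ≤ ρ.re ∧ 0 < ρ.im ∧ ρ.im ≤ T ∧
  (num (near ε ρ) : ℝ) < c * Real.log ρ.im}

lemma num_cnt (A : Set ℂ) : num A = DH31.cnt A := rfl

lemma near_fin (ε : ℝ) (ρ : ℂ) : (near ε ρ).Finite := by
  refine (DH31.finite_region (ρ.re - ε) (ρ.im - 1) (ρ.im + 1)).subset ?_
  rintro s ⟨h1, h2, h3⟩
  have := abs_le.1 h3
  exact ⟨h1, h2, by linarith, by linarith⟩

lemma num_near_mono {ε ε' : ℝ} (h : ε ≤ ε') (ρ : ℂ) : num (near ε ρ) ≤ num (near ε' ρ) := by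
  apply DH31.cnt_mono (near_fin ε' ρ)
  rintro s ⟨h1, h2, h3⟩
  exact ⟨h1, by linarith, h3⟩

lemma sparse_sub_zeros {c ε σ T : ℝ} (hσ : 1 / 2 ≤ σ) : sparse c ε σ T ⊆ DH31.zeros (1 / 2) T :=
  fun _ h => ⟨h.1, hσ.trans h.2.1, h.2.2.1, h.2.2.2.1⟩

lemma sparse_finite {c ε σ T : ℝ} (hσ : 1 / 2 ≤ σ) : (sparse c ε σ T).Finite :=
  (DH31.zeros_finite _ _).subset (sparse_sub_zeros hσ)

lemma sparse_mono {c c' ε σ σ' T : ℝ} (hc0 : 0 ≤ c) (hc : c ≤ c') (hσ : σ' ≤ σ) :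
    sparse c ε σ T ⊆ sparse c' ε σ' T := by
  rintro ρ ⟨h1, h2, h3, h4, h5⟩
  refine ⟨h1, hσ.trans h2, h3, h4, h5.trans_le ?_⟩
  by_cases h : 0 ≤ Real.log ρ.im
  · exact mul_le_mul_of_nonneg_right hc h
  · exfalso
    push Not at h
    have hn : (0 : ℝ) ≤ num (near ε ρ) := Nat.cast_nonneg _
    have : c * Real.log ρ.im ≤ 0 := mul_nonpos_of_nonneg_of_nonpos hc0 h.le
    linarith

/-- the bound for one `k` -/
theorem fin_k (k : ℕ) (ε ε1 : ℝ) (hk : 2 ≤ k) (hε : 0 < ε) (hε1 : 0 < ε1) : ∃ c C : ℝ, 0 < c ∧ 0 < C ∧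
    ∀ σ T : ℝ, 1 - (1 / 2) ^ k ≤ σ → σ ≤ 1 → 2 ≤ T →
      (num (sparse c ε1 σ T) : ℝ) ≤ C * T ^ (DE k σ + ε) := by
  classical
  obtain ⟨δ, a1, hδ, ha1, hbad⟩ := bad k (ε / 2) hk (by positivity)
  obtain ⟨e, he⟩ : ∃ e : ℝ, e = min (min δ ε1) (1 / 20) := ⟨_, rfl⟩
  have he0 : 0 < e := by rw [he]; exact lt_min (lt_min hδ hε1) (by norm_num)
  have he20 : e ≤ 1 / 20 := by rw [he]; exact min_le_right _ _
  have heδ : e ≤ δ := by rw [he]; exact (min_le_left _ _).trans (min_le_left _ _)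
  have heε : e ≤ ε1 := by rw [he]; exact (min_le_left _ _).trans (min_le_right _ _)
  obtain ⟨η, hη, hη1, hloc⟩ := sLOCAL e he0 he20
  obtain ⟨a, ha⟩ : ∃ a : ℝ, a = min a1 1 := ⟨_, rfl⟩
  have ha0 : 0 < a := by rw [ha]; exact lt_min ha1 one_pos
  have haa1 : a ≤ a1 := by rw [ha]; exact min_le_left _ _
  have ha1' : a ≤ 1 := by rw [ha]; exact min_le_right _ _
  obtain ⟨c1, U0, hc1, hU0, hloc⟩ := hloc a ha0 ha1'
  obtain ⟨C, hC, hbad⟩ := hbad a η ha0 haa1 hη hη1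
  obtain ⟨C3, hC3, hwin⟩ := DH31.windows_to_count
  -- a dyadic threshold
  obtain ⟨j0, hj0⟩ : ∃ j0 : ℕ, U0 ≤ 2 ^ j0 := by
    obtain ⟨j, hj⟩ := pow_unbounded_of_one_lt U0 (one_lt_two : (1 : ℝ) < 2)
    exact ⟨j, hj.le⟩
  refine ⟨c1 / 2, C3 + 2 * (2 ^ j0 + (2 + 1 / (ε / 4)) * 2 * C) * (C3 * (1 / (ε / 4))) * 2 +
    DH31.cnt (DH31.zeros (1 / 2) 3) + 1, by positivity, by positivity, ?_⟩
  intro σ T hσ hσ1 hT2
  have hσ34 : 3 / 4 ≤ σ := by
    have h1 : (1 / 2 : ℝ) ^ k ≤ (1 / 2) ^ 2 := pow_le_pow_of_le_one (by norm_num) (by norm_num) hk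
    norm_num at h1 hσ
    linarith
  have hM0 : (0 : ℝ) < 2 ^ k := by positivity
  have hx1 : 2 - 2 * σ ≤ 2 / 2 ^ k := by
    have h1 : (1 / 2 : ℝ) ^ k = 1 / 2 ^ k := by rw [div_pow, one_pow]
    rw [h1] at hσ
    have h2 : (2 : ℝ) / 2 ^ k = 2 * (1 / 2 ^ k) := by ring
    rw [h2]
    linarith
  obtain ⟨-, -, -, -, g3, -, -⟩ := exponents hk one_pos le_rfl (show (0 : ℝ) < 1 / 100 by norm_num)
    le_rfl (show 0 ≤ 2 - 2 * σ by linarith) hx1 rfl
  have hDE0 : 0 ≤ DE k σ := by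
    unfold DE
    exact div_nonneg (by linarith) (by linarith)
  set A : Set ℂ := sparse (c1 / 2) ε1 σ T with hA
  have hAsub : A ⊆ DH31.zeros (1 / 2) T := sparse_sub_zeros (by linarith)
  have hT0 : 0 < T := by linarith
  have hTe1 : 1 ≤ T ^ (DE k σ + ε) := Real.one_le_rpow (by linarith) (by linarith)
  rw [num_cnt]
  by_cases hT3 : 3 ≤ T
  swap
  · push Not at hT3
    have h1 : DH31.cnt A ≤ DH31.cnt (DH31.zeros (1 / 2) 3) := by
      apply DH31.cnt_mono (DH31.zeros_finite _ _)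
      intro s hs
      have := hAsub hs
      exact ⟨this.1, this.2.1, this.2.2.1, this.2.2.2.trans hT3.le⟩
    have h2 : (DH31.cnt A : ℝ) ≤ DH31.cnt (DH31.zeros (1 / 2) 3) := by exact_mod_cast h1
    have h3 : 0 ≤ C3 + 2 * (2 ^ j0 + (2 + 1 / (ε / 4)) * 2 * C) * (C3 * (1 / (ε / 4))) * 2 := by
      positivity
    have h4 : (0 : ℝ) ≤ DH31.cnt (DH31.zeros (1 / 2) 3) := Nat.cast_nonneg _
    calc (DH31.cnt A : ℝ) ≤ (DH31.cnt (DH31.zeros (1 / 2) 3)) * 1 := by linarith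
      _ ≤ _ := mul_le_mul (by linarith) hTe1 (by norm_num) (by positivity)
  -- the integers below ordinates of sparse zeros
  set Mf : Finset ℕ := (Finset.range (⌊T⌋₊ + 1)).filter (fun m => ∃ ρ ∈ A, ⌊ρ.im⌋₊ = m) with hMf
  have hlogT0 : 0 < Real.log T := Real.log_pos (by linarith)
  obtain ⟨J, hJ⟩ : ∃ J : ℕ, J = Nat.log 2 ⌊T⌋₊ := ⟨_, rfl⟩
  set Lj : ℕ → Finset ℤ := fun j => (Mf.filter (fun m => j0 ≤ j ∧ 2 ^ j ≤ m ∧ m < 2 ^ (j + 1))).image
    (fun m : ℕ => (m : ℤ)) with hLj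
  have hLjb : ∀ j ∈ Finset.range (J + 1), ((Lj j).card : ℝ) ≤ C * T ^ (DE k σ + ε / 2) := by
    intro j hj
    rw [Finset.mem_range] at hj
    by_cases hjj : j0 ≤ j
    swap
    · have : Lj j = ∅ := by
        simp only [hLj]
        rw [Finset.image_eq_empty, Finset.filter_eq_empty_iff]
        rintro m _ ⟨h1, _⟩
        exact hjj h1
      rw [this]
      simp only [Finset.card_empty, Nat.cast_zero]
      positivity
    have hU0j : U0 ≤ (2 : ℝ) ^ j := hj0.trans (pow_le_pow_right₀ (by norm_num) hjj)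
    have hU2 : (2 : ℝ) ≤ 2 ^ j := hU0.trans hU0j
    have hbd := hbad (2 ^ j) σ (Lj j) hU2 hσ hσ1 (by
      intro m hm
      simp only [hLj] at hm
      obtain ⟨m', hm', rfl⟩ := Finset.mem_image.1 hm
      obtain ⟨h1, h2, h3, h4⟩ := Finset.mem_filter.1 hm'
      obtain ⟨h5, ρ, h6, h7⟩ := Finset.mem_filter.1 h1
      have h3' : (2 : ℝ) ^ j ≤ m' := by exact_mod_cast h3
      have h4' : (m' : ℝ) + 1 ≤ 2 * 2 ^ j := by
        have : m' + 1 ≤ 2 ^ (j + 1) := h4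
        have h8 : ((m' + 1 : ℕ) : ℝ) ≤ ((2 ^ (j + 1) : ℕ) : ℝ) := by exact_mod_cast this
        push_cast at h8
        rw [pow_succ] at h8
        linarith
      have hρ0 : 0 < ρ.im := h6.2.2.1
      have h8 : (m' : ℝ) ≤ ρ.im := by
        rw [← h7]
        exact Nat.floor_le hρ0.le
      have h9 : ρ.im < m' + 1 := by
        rw [← h7]
        exact Nat.lt_floor_add_one _
      have h10 := hloc (2 ^ j) ρ hU0j h6.1 (hσ34.trans h6.2.1) (h3'.trans h8) (by linarith) (by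
        have e1 : (num (near e ρ) : ℝ) ≤ num (near ε1 ρ) := by
          exact_mod_cast num_near_mono heε ρ
        have e2 := h6.2.2.2.2
        have e3 : Real.log ρ.im ≤ 2 * Real.log (2 ^ j) := by
          have e4 : ρ.im ≤ (2 ^ j) ^ 2 := by nlinarith
          calc Real.log ρ.im ≤ Real.log ((2 ^ j) ^ 2) := Real.log_le_log hρ0 e4
            _ = _ := by rw [Real.log_pow]; push_cast; ring
        calc (num (near e ρ) : ℝ) ≤ num (near ε1 ρ) := e1
          _ < c1 / 2 * Real.log ρ.im := e2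
          _ ≤ c1 / 2 * (2 * Real.log (2 ^ j)) := mul_le_mul_of_nonneg_left e3 (by positivity)
          _ = c1 * Real.log (2 ^ j) := by ring)
      obtain ⟨z, z1, z2, z3, z4⟩ := h10
      push_cast
      refine ⟨h3', by linarith, z, by linarith [h6.2.1], z2, ?_, z4⟩
      have z3' := abs_le.1 z3
      rw [abs_le]
      constructor <;> linarith)
    refine hbd.trans ?_
    apply mul_le_mul_of_nonneg_left _ hC.le
    apply Real.rpow_le_rpow (by positivity) _ (by linarith)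
    have h1 : 2 ^ j ≤ ⌊T⌋₊ := by
      have h2 : 2 ^ J ≤ ⌊T⌋₊ := by
        rw [hJ]
        exact Nat.pow_log_le_self 2 (by
          have : 0 < ⌊T⌋₊ := Nat.floor_pos.2 (by linarith)
          omega)
      exact (Nat.pow_le_pow_right (by norm_num) (by omega)).trans h2
    calc (2 : ℝ) ^ j ≤ ⌊T⌋₊ := by exact_mod_cast h1
      _ ≤ T := Nat.floor_le hT0.le
  have hMcard : (Mf.card : ℝ) ≤ 2 ^ j0 + (J + 1) * (C * T ^ (DE k σ + ε / 2)) := by
    have hsub : Mf ⊆ Finset.range (2 ^ j0) ∪ (Finset.range (J + 1)).biUnion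
        (fun j => Mf.filter (fun m => j0 ≤ j ∧ 2 ^ j ≤ m ∧ m < 2 ^ (j + 1))) := by
      intro m hm
      rw [Finset.mem_union]
      by_cases h : m < 2 ^ j0
      · exact Or.inl (Finset.mem_range.2 h)
      · right
        push Not at h
        have hm0 : m ≠ 0 := by
          have : 0 < 2 ^ j0 := by positivity
          omega
        rw [Finset.mem_biUnion]
        have hmT : m ≤ ⌊T⌋₊ := by
          have := Finset.mem_range.1 (Finset.mem_filter.1 hm).1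
          omega
        refine ⟨Nat.log 2 m, ?_, ?_⟩
        · rw [Finset.mem_range, hJ]
          have := Nat.log_mono_right (b := 2) hmT
          omega
        · rw [Finset.mem_filter]
          refine ⟨hm, ?_, Nat.pow_log_le_self 2 hm0, Nat.lt_pow_succ_log_self (by norm_num) m⟩
          exact (Nat.le_log_iff_pow_le (by norm_num) hm0).2 h
    have h1 := (Finset.card_le_card hsub).trans (Finset.card_union_le _ _)
    rw [Finset.card_range] at h1
    have h2 : (((Finset.range (J + 1)).biUnion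
        (fun j => Mf.filter (fun m => j0 ≤ j ∧ 2 ^ j ≤ m ∧ m < 2 ^ (j + 1)))).card : ℝ) ≤
        (J + 1) * (C * T ^ (DE k σ + ε / 2)) := by
      calc _ ≤ ∑ j ∈ Finset.range (J + 1),
            ((Mf.filter (fun m => j0 ≤ j ∧ 2 ^ j ≤ m ∧ m < 2 ^ (j + 1))).card : ℝ) := by
              exact_mod_cast Finset.card_biUnion_le
        _ = ∑ j ∈ Finset.range (J + 1), ((Lj j).card : ℝ) := by
            refine Finset.sum_congr rfl fun j _ => ?_
            simp only [hLj]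
            rw [Finset.card_image_of_injective _ (fun x y h => by exact_mod_cast h)]
        _ ≤ ∑ _j ∈ Finset.range (J + 1), C * T ^ (DE k σ + ε / 2) := Finset.sum_le_sum hLjb
        _ = _ := by
            rw [Finset.sum_const, Finset.card_range, nsmul_eq_mul]
            push_cast
            ring
    have h3 : (Mf.card : ℝ) ≤ 2 ^ j0 + (((Finset.range (J + 1)).biUnion
        (fun j => Mf.filter (fun m => j0 ≤ j ∧ 2 ^ j ≤ m ∧ m < 2 ^ (j + 1)))).card : ℝ) := by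
      exact_mod_cast h1
    linarith
  -- windows
  set S : Finset ℕ := Mf ∪ Mf.image (fun m => m - 1) with hS
  have hScard : (S.card : ℝ) ≤ 2 * Mf.card := by
    have h1 : S.card ≤ Mf.card + (Mf.image (fun m => m - 1)).card := Finset.card_union_le _ _
    have h2 : (Mf.image (fun m => m - 1)).card ≤ Mf.card := Finset.card_image_le
    have h3 : S.card ≤ 2 * Mf.card := by omega
    exact_mod_cast h3
  have hcnt := hwin T hT3 A hAsub S (by
    intro ρ hρ hρ3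
    have hρ0 : 0 ≤ ρ.im := by linarith
    have h1 := Nat.floor_le hρ0
    have h2 := Nat.lt_floor_add_one ρ.im
    have h3 : ⌊ρ.im⌋₊ ∈ Mf := by
      rw [hMf, Finset.mem_filter, Finset.mem_range]
      refine ⟨?_, ρ, hρ, rfl⟩
      have := Nat.floor_le_floor (hρ.2.2.2.1)
      omega
    rcases h1.lt_or_eq with h4 | h4
    · exact ⟨⌊ρ.im⌋₊, Finset.mem_union_left _ h3, h4, h2.le⟩
    · have h5 : 1 ≤ ⌊ρ.im⌋₊ := by
        have : (1 : ℝ) ≤ ⌊ρ.im⌋₊ := by rw [h4]; linarith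
        exact_mod_cast this
      refine ⟨⌊ρ.im⌋₊ - 1, Finset.mem_union_right _ (Finset.mem_image_of_mem _ h3), ?_, ?_⟩
      · rw [Nat.cast_sub h5, h4]
        push_cast
        linarith
      · rw [Nat.cast_sub h5, h4]
        push_cast
        linarith)
  -- logarithms
  have hε4 : 0 < ε / 4 := by positivity
  have hlog := Real.log_le_rpow_div hT0.le hε4
  have hTe4 : 1 ≤ T ^ (ε / 4) := Real.one_le_rpow (by linarith) hε4.le
  have hlog' : Real.log T ≤ 1 / (ε / 4) * T ^ (ε / 4) := by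
    rw [one_div_mul_eq_div]
    exact hlog
  have hJb : (J : ℝ) ≤ 2 * Real.log T := by
    have h1 : 2 ^ J ≤ ⌊T⌋₊ := by
      rw [hJ]
      exact Nat.pow_log_le_self 2 (by
        have : 0 < ⌊T⌋₊ := Nat.floor_pos.2 (by linarith)
        omega)
    have h2 : (2 : ℝ) ^ J ≤ T := by
      calc (2 : ℝ) ^ J ≤ ⌊T⌋₊ := by exact_mod_cast h1
        _ ≤ T := Nat.floor_le hT0.le
    have h3 := Real.log_le_log (by positivity) h2
    rw [Real.log_pow] at h3
    have h4 := Real.log_two_gt_d9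
    have h5 : (0 : ℝ) ≤ J := Nat.cast_nonneg _
    nlinarith
  have hJ1 : (J : ℝ) + 1 ≤ (2 + 1 / (ε / 4)) * 2 * T ^ (ε / 4) := by
    have h1 : 0 < 1 / (ε / 4) := by positivity
    have h2 : 2 * Real.log T ≤ 2 * (1 / (ε / 4) * T ^ (ε / 4)) := by linarith
    nlinarith
  have hP : 0 < T ^ (DE k σ + ε / 2) := Real.rpow_pos_of_pos hT0 _
  have hP1 : 1 ≤ T ^ (DE k σ + ε / 2) := Real.one_le_rpow (by linarith) (by linarith)
  have hMfin : (Mf.card : ℝ) ≤ (2 ^ j0 + (2 + 1 / (ε / 4)) * 2 * C) * T ^ (DE k σ + ε / 2 + ε / 4) := by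
    have e1 : T ^ (DE k σ + ε / 2 + ε / 4) = T ^ (DE k σ + ε / 2) * T ^ (ε / 4) :=
      Real.rpow_add hT0 _ _
    have h1 : (J + 1) * (C * T ^ (DE k σ + ε / 2)) ≤
        (2 + 1 / (ε / 4)) * 2 * T ^ (ε / 4) * (C * T ^ (DE k σ + ε / 2)) :=
      mul_le_mul_of_nonneg_right hJ1 (by positivity)
    have h2 : (2 : ℝ) ^ j0 ≤ 2 ^ j0 * T ^ (DE k σ + ε / 2 + ε / 4) := by
      have : 1 ≤ T ^ (DE k σ + ε / 2 + ε / 4) := Real.one_le_rpow (by linarith) (by linarith)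
      exact le_mul_of_one_le_right (by positivity) this
    calc (Mf.card : ℝ) ≤ _ := hMcard
      _ ≤ 2 ^ j0 * T ^ (DE k σ + ε / 2 + ε / 4) +
          (2 + 1 / (ε / 4)) * 2 * T ^ (ε / 4) * (C * T ^ (DE k σ + ε / 2)) := add_le_add h2 h1
      _ = _ := by rw [e1]; ring
  set B0 : ℝ := 2 ^ j0 + (2 + 1 / (ε / 4)) * 2 * C with hB0
  have hB00 : 0 ≤ B0 := by rw [hB0]; positivity
  have hlast : (S.card : ℝ) * (C3 * Real.log T) ≤
      2 * B0 * (C3 * (1 / (ε / 4))) * 2 * T ^ (DE k σ + ε) := by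
    have e1 : T ^ (DE k σ + ε) = T ^ (DE k σ + ε / 2 + ε / 4) * T ^ (ε / 4) := by
      rw [← Real.rpow_add hT0]
      congr 1
      ring
    have h1 : (S.card : ℝ) ≤ 2 * (B0 * T ^ (DE k σ + ε / 2 + ε / 4)) := by linarith
    have h2 : C3 * Real.log T ≤ C3 * (1 / (ε / 4) * T ^ (ε / 4)) :=
      mul_le_mul_of_nonneg_left hlog' hC3.le
    have h3 : (S.card : ℝ) * (C3 * Real.log T) ≤
        2 * (B0 * T ^ (DE k σ + ε / 2 + ε / 4)) * (C3 * (1 / (ε / 4) * T ^ (ε / 4))) :=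
      mul_le_mul h1 h2 (by positivity) (by positivity)
    refine h3.trans ?_
    rw [e1]
    have h4 : 0 ≤ 2 * B0 * (C3 * (1 / (ε / 4))) * (T ^ (DE k σ + ε / 2 + ε / 4) * T ^ (ε / 4)) := by
      positivity
    calc 2 * (B0 * T ^ (DE k σ + ε / 2 + ε / 4)) * (C3 * (1 / (ε / 4) * T ^ (ε / 4))) =
        2 * B0 * (C3 * (1 / (ε / 4))) * (T ^ (DE k σ + ε / 2 + ε / 4) * T ^ (ε / 4)) := by ring
      _ ≤ 2 * B0 * (C3 * (1 / (ε / 4))) * (T ^ (DE k σ + ε / 2 + ε / 4) * T ^ (ε / 4)) * 2 := by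
          linarith
      _ = _ := by ring
  have hc3 : C3 ≤ C3 * T ^ (DE k σ + ε) := le_mul_of_one_le_right hC3.le hTe1
  have hcz : (0 : ℝ) ≤ DH31.cnt (DH31.zeros (1 / 2) 3) := Nat.cast_nonneg _
  calc (DH31.cnt A : ℝ) ≤ C3 + S.card * (C3 * Real.log T) := hcnt
    _ ≤ C3 * T ^ (DE k σ + ε) + 2 * B0 * (C3 * (1 / (ε / 4))) * 2 * T ^ (DE k σ + ε) :=
        add_le_add hc3 hlast
    _ = (C3 + 2 * B0 * (C3 * (1 / (ε / 4))) * 2) * T ^ (DE k σ + ε) := by ring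
    _ ≤ _ := by
        apply mul_le_mul_of_nonneg_right _ (by linarith)
        linarith

/-- finitely many `k` at once -/
theorem fin_K (K : ℕ) (ε ε1 : ℝ) (hε : 0 < ε) (hε1 : 0 < ε1) : ∃ c C : ℝ, 0 < c ∧ 0 < C ∧
    ∀ k : ℕ, 2 ≤ k → k ≤ K → ∀ σ T : ℝ, 1 - (1 / 2) ^ k ≤ σ → σ ≤ 1 → 2 ≤ T →
      (num (sparse c ε1 σ T) : ℝ) ≤ C * T ^ (DE k σ + ε) := by
  induction K with
  | zero => exact ⟨1, 1, one_pos, one_pos, fun k h1 h2 => by omega⟩
  | succ K ih =>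
    obtain ⟨c, C, hc, hC, h⟩ := ih
    by_cases hK : 2 ≤ K + 1
    · obtain ⟨c', C', hc', hC', h'⟩ := fin_k (K + 1) ε ε1 hK hε hε1
      refine ⟨min c c', C + C', lt_min hc hc', by positivity, ?_⟩
      intro k hk hkK σ T hσ hσ1 hT
      have hσ12 : 1 / 2 ≤ σ := by
        have h1 : (1 / 2 : ℝ) ^ k ≤ (1 / 2) ^ 2 := pow_le_pow_of_le_one (by norm_num) (by norm_num) hk
        norm_num at h1 hσ
        linarith
      have hmono : ∀ c'' : ℝ, min c c' ≤ c'' →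
          (num (sparse (min c c') ε1 σ T) : ℝ) ≤ num (sparse c'' ε1 σ T) := by
        intro c'' hcc
        exact_mod_cast DH31.cnt_mono (sparse_finite hσ12)
          (sparse_mono (le_min hc.le hc'.le) hcc le_rfl)
      have hP : 0 < T ^ (DE k σ + ε) := Real.rpow_pos_of_pos (by linarith) _
      rcases Nat.lt_or_ge k (K + 1) with h1 | h1
      · refine (hmono c (min_le_left _ _)).trans ((h k hk (by omega) σ T hσ hσ1 hT).trans ?_)
        exact mul_le_mul_of_nonneg_right (by linarith) hP.le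
      · have h2 : k = K + 1 := le_antisymm hkK h1
        subst h2
        refine (hmono c' (min_le_right _ _)).trans ((h' σ T hσ hσ1 hT).trans ?_)
        exact mul_le_mul_of_nonneg_right (by linarith) hP.le
    · exact ⟨c, C, hc, hC, fun k h1 h2 => by omega⟩

/-- the final theorem -/
theorem final (ε : ℝ) (hε : 0 < ε) : ∃ c C : ℝ, 0 < c ∧ 0 < C ∧
    ∀ k : ℕ, 2 ≤ k → ∀ σ T : ℝ, 1 - (1 / 2) ^ k ≤ σ → σ ≤ 1 → 2 ≤ T →
      (num (sparse c ε σ T) : ℝ) ≤ C * T ^ (DE k σ + ε) := by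
  obtain ⟨k1, hk1⟩ : ∃ k1 : ℕ, (1 / 2 : ℝ) ^ k1 < ε / 4 := exists_pow_lt_of_lt_one (by positivity) (by norm_num)
  obtain ⟨k2, hk2⟩ : ∃ k2 : ℕ, k2 = k1 + 2 := ⟨_, rfl⟩
  have hk22 : 2 ≤ k2 := by omega
  have hpow : (1 / 2 : ℝ) ^ k2 < ε / 4 :=
    (pow_le_pow_of_le_one (by norm_num) (by norm_num) (by omega)).trans_lt hk1
  obtain ⟨c, C, hc, hC, h⟩ := fin_K k2 (ε / 2) ε (by positivity) hε
  refine ⟨c, C, hc, hC, ?_⟩
  intro k hk σ T hσ hσ1 hT
  have hT0 : 0 < T := by linarith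
  by_cases hkk : k ≤ k2
  · refine (h k hk hkk σ T hσ hσ1 hT).trans ?_
    apply mul_le_mul_of_nonneg_left _ hC.le
    exact Real.rpow_le_rpow_of_exponent_le (by linarith) (by linarith)
  · push Not at hkk
    obtain ⟨σ', hσ'⟩ : ∃ σ' : ℝ, σ' = 1 - (1 / 2) ^ k2 := ⟨_, rfl⟩
    have h1 : (1 / 2 : ℝ) ^ k ≤ (1 / 2) ^ k2 :=
      pow_le_pow_of_le_one (by norm_num) (by norm_num) hkk.le
    have hp0 : (0 : ℝ) < (1 / 2) ^ k2 := by positivity
    have h2 : σ' ≤ σ := by rw [hσ']; linarith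
    have hp4 : (1 / 2 : ℝ) ^ k2 ≤ (1 / 2) ^ 2 := pow_le_pow_of_le_one (by norm_num) (by norm_num) hk22
    have hσ'12 : 1 / 2 ≤ σ' := by
      norm_num at hp4
      rw [hσ']
      norm_num
      linarith
    have h3 : (num (sparse c ε σ T) : ℝ) ≤ num (sparse c ε σ' T) := by
      exact_mod_cast DH31.cnt_mono (sparse_finite hσ'12) (sparse_mono hc.le le_rfl h2)
    have h4 := h k2 hk22 le_rfl σ' T (by rw [hσ']) (by rw [hσ']; linarith) hT
    have hM0 : (0 : ℝ) < 2 ^ k2 := by positivity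
    have hx : 2 - 2 * σ' = 2 / 2 ^ k2 := by
      rw [hσ', div_pow, one_pow]
      ring
    obtain ⟨-, -, -, -, g3, -, -⟩ := exponents hk22 one_pos le_rfl (show (0 : ℝ) < 1 / 100 by norm_num)
      le_rfl (show 0 ≤ 2 - 2 * σ' by rw [hx]; positivity) hx.le rfl
    have hDE' : DE k2 σ' ≤ ε / 2 := by
      unfold DE
      rw [show 2 * (1 - σ') = 2 - 2 * σ' by ring, div_le_iff₀ (by linarith)]
      have h5 : 2 - 2 * σ' ≤ ε / 2 := by rw [hσ']; linarith
      nlinarith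
    have hx1 : 2 - 2 * σ ≤ 2 / 2 ^ k := by
      have h1 : (1 / 2 : ℝ) ^ k = 1 / 2 ^ k := by rw [div_pow, one_pow]
      rw [h1] at hσ
      have h2 : (2 : ℝ) / 2 ^ k = 2 * (1 / 2 ^ k) := by ring
      rw [h2]
      linarith
    obtain ⟨-, -, -, -, g4, -, -⟩ := exponents hk one_pos le_rfl (show (0 : ℝ) < 1 / 100 by norm_num)
      le_rfl (show 0 ≤ 2 - 2 * σ by linarith) hx1 rfl
    have hDE0 : 0 ≤ DE k σ := by
      unfold DE
      exact div_nonneg (by linarith) (by linarith)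
    refine h3.trans (h4.trans ?_)
    apply mul_le_mul_of_nonneg_left _ hC.le
    exact Real.rpow_le_rpow_of_exponent_le (by linarith) (by linarith)

end Pool.Agent.Zk1.BD
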